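import Mathlib

set_option autoImplicit false

namespace Pool.Agent.Helper131

/-- A finite word `w` over `k` letters is free of powers of exponent at least `α`: no nonempty
factor `y` of `w` has a period `p` (that is, `y i = y (i + p)` whenever both positions lie in `y`)
with `|y| / p ≥ α`. -/
def Free {k : ℕ} (α : ℚ) (w : List (Fin k)) : Prop :=
  ∀ a y b : List (Fin k), w = a ++ y ++ b → y ≠ [] → ∀ p : ℕ, 0 < p →
    (∀ i, i + p < y.length → y[i]? = y[i + p]?) → (y.length : ℚ) / p < α

end Pool.Agent.Helper131
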