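import Mathlib
import Pool.Agent.Helper131.FreeDef

set_option autoImplicit false

namespace Pool.Agent.Helper131.Trans

open Pool.Agent.Helper131 (Free)

variable {A : Type}

/-- no factor with period `p` and length at least `α p` -/
def PF (α : ℚ) (V : ℕ → A) : Prop :=
  ∀ i e p : ℕ, 0 < p → α * p ≤ e → ∃ j, j + p < e ∧ V (i + j) ≠ V (i + j + p)

structure Hubby (α : ℚ) (H : ℕ → A) (l : ℕ) : Prop where
  two : 2 ≤ α
  pos : 1 ≤ l
  h1 : ∀ q, 0 < q → ∃ k < l, H k ≠ H (q + k)
  h2 : ∀ a ≤ l, ∀ p, 0 < p → p < a → ∃ k, k + p < a ∧ H k ≠ H (k + p)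
  h3 : ∀ i e p : ℕ, 0 < i → 0 < p → α * p ≤ e → ∃ j, j + p < e ∧ H (i + j) ≠ H (i + j + p)
  h4 : ∀ p e : ℕ, l ≤ p → α * p ≤ e → 2 * p + l ≤ e + 1

def mk (W H : ℕ → A) (s m : ℕ) : Prop := ∀ k < m, W (s + k) = H k

def GoalH (α : ℚ) (H W : ℕ → A) (N : ℕ) : Prop :=
  ∃ V r, PF α V ∧ (∀ k, V (r + k) = H k) ∧ ∀ i < N, V i = W i

theorem two_le {α : ℚ} (h : 2 ≤ α) {p e : ℕ} (he : α * p ≤ e) : 2 * p ≤ e := by
  have h1 : (2 : ℚ) * p ≤ α * p := mul_le_mul_of_nonneg_right h (Nat.cast_nonneg p)
  have h2 : (2 : ℚ) * p ≤ e := h1.trans he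
  exact_mod_cast h2

theorem bound_exists (κ : ℕ → ℕ) (N : ℕ) : ∃ B, ∀ s < N, κ s < B := by
  induction N with
  | zero => exact ⟨0, fun s hs => absurd hs (by omega)⟩
  | succ N ih =>
    obtain ⟨B, hB⟩ := ih
    refine ⟨max B (κ N + 1), fun s hs => ?_⟩
    rcases Nat.lt_or_ge s N with h | h
    · exact lt_of_lt_of_le (hB s h) (le_max_left _ _)
    · obtain rfl : s = N := by omega
      exact lt_of_lt_of_le (by omega) (le_max_right _ _)

theorem core {α : ℚ} {H : ℕ → A} {l : ℕ} (hH : Hubby α H l) {W V : ℕ → A} {s m : ℕ}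
    (hm : 1 ≤ m) (hV : ∀ i < s + m, V i = W i) (hVH : ∀ k, V (s + k) = H k) {i e p : ℕ}
    (hp : 0 < p) (he : α * p ≤ e) (his : i ≤ s) (hie : s + m < i + e)
    (hper : ∀ j, j + p < e → V (i + j) = V (i + j + p)) :
    i + p ≤ s ∧ ∀ k, k < p + m → s + k < i + e → W (s - p + k) = H k := by
  have h2e := two_le hH.two he
  have hper' : ∀ k, s + k + p < i + e → H k = H (p + k) := by
    intro k hk
    have := hper (s + k - i) (by omega)
    rw [show i + (s + k - i) = s + k from by omega, hVH, add_assoc, hVH, add_comm k p] at this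
    exact this
  have hip : i + p ≤ s := by
    rcases Nat.lt_or_ge (i + e - s) l with hl | hl
    · have hpa : i + e - s ≤ p := by
        by_contra hlt
        push Not at hlt
        obtain ⟨k, hk, hne⟩ := hH.h2 (i + e - s) (by omega) p hp hlt
        apply hne
        rw [add_comm k p]
        exact hper' k (by omega)
      omega
    · have hpa : l ≤ p := by
        by_contra hlt
        push Not at hlt
        obtain ⟨k, hk, hne⟩ := hH.h2 l le_rfl p hp hlt
        apply hne
        rw [add_comm k p]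
        exact hper' k (by omega)
      have h4 := hH.h4 p e hpa he
      have h5 : i + e < s + p + l := by
        by_contra hlt
        push Not at hlt
        obtain ⟨k, hk, hne⟩ := hH.h1 p hp
        exact hne (hper' k (by omega))
      omega
  refine ⟨hip, fun k hk1 hk2 => ?_⟩
  rw [← hV _ (by omega)]
  have := hper (s - p + k - i) (by omega)
  rw [show i + (s - p + k - i) = s - p + k from by omega] at this
  rw [this, show s - p + k + p = s + k from by omega, hVH]

theorem switch0 {α : ℚ} {H : ℕ → A} {l : ℕ} (hH : Hubby α H l) {W : ℕ → A} (hW : PF α W)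
    (hNT : ∀ s, ∃ k, W (s + k) ≠ H k) (N N1 : ℕ) :
    ∃ B0, ∀ s ≥ B0, ∀ m ≥ 1, mk W H s m → (∀ s', N1 ≤ s' → s' < s → ¬ mk W H s' (m + 1)) →
      N ≤ s + m → GoalH α H W N := by
  choose κ hκ using hNT
  obtain ⟨B, hB⟩ := bound_exists (fun s => κ s) N1
  refine ⟨B + 2 * N1 + 1, ?_⟩
  intro s hs m hm hmk hno hN
  set V : ℕ → A := fun i => if i < s then W i else H (i - s) with hVdef
  have hVH : ∀ k, V (s + k) = H k := by
    intro k
    simp only [hVdef]
    rw [if_neg (by omega)]
    congr 1
    omega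
  have hV : ∀ i < s + m, V i = W i := by
    intro i hi
    rcases Nat.lt_or_ge i s with h | h
    · simp only [hVdef]
      rw [if_pos h]
    · have h1 := hVH (i - s)
      have h2 := hmk (i - s) (by omega)
      rw [show s + (i - s) = i from by omega] at h1 h2
      rw [h1, h2]
  refine ⟨V, s, ?_, hVH, fun i hi => hV i (by omega)⟩
  intro i e p hp he
  by_contra hcon
  push Not at hcon
  rcases Nat.lt_or_ge (s + m) (i + e) with h1 | h1
  swap
  · obtain ⟨j, hj, hne⟩ := hW i e p hp he
    apply hne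
    have := hcon j hj
    rwa [hV _ (by omega), hV _ (by omega)] at this
  rcases Nat.lt_or_ge s i with h2 | h2
  · obtain ⟨j, hj, hne⟩ := hH.h3 (i - s) e p (by omega) hp he
    apply hne
    have := hcon j hj
    rwa [show i + j = s + (i - s + j) from by omega, hVH,
      show s + (i - s + j) + p = s + (i - s + j + p) from by omega, hVH] at this
  obtain ⟨hip, hc⟩ := core hH hm hV hVH hp he h2 h1 hcon
  rcases Nat.lt_or_ge (s - p) N1 with h3 | h3
  · have h4 := hB (s - p) h3
    have h2e := two_le hH.two he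
    exact hκ (s - p) (hc (κ (s - p)) (by omega) (by omega))
  · refine hno (s - p) h3 (by omega) ?_
    intro k hk
    exact hc k (by omega) (by omega)

/-- every free word in which the first letter of the hub recurs can be switched to the hub -/
theorem switch {α : ℚ} {H : ℕ → A} {l : ℕ} (hH : Hubby α H l) {W : ℕ → A} (hW : PF α W)
    (hrec : ∀ N', ∃ s ≥ N', W s = H 0) (N : ℕ) : GoalH α H W N := by
  by_cases htail : ∃ s, ∀ k, W (s + k) = H k
  · obtain ⟨s, hs⟩ := htail
    exact ⟨W, s, hW, hs, fun i _ => rfl⟩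
  have hNT : ∀ s, ∃ k, W (s + k) ≠ H k := by
    intro s
    by_contra hcon
    push Not at hcon
    exact htail ⟨s, hcon⟩
  by_cases hall : ∀ m, ∀ N', ∃ r ≥ N', mk W H r m
  · obtain ⟨B0, hB0⟩ := switch0 hH hW hNT N 0
    choose κ hκ using hNT
    obtain ⟨C, hC⟩ := bound_exists κ B0
    set m := max (max 1 N) C with hm
    have hex : ∃ r, mk W H r m := by
      obtain ⟨r, -, hr⟩ := hall m 0
      exact ⟨r, hr⟩
    classical
    have hr := Nat.find_spec hex
    have hmin : ∀ s < Nat.find hex, ¬ mk W H s m := fun s hs => Nat.find_min hex hs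
    refine hB0 (Nat.find hex) ?_ m (by omega) hr ?_ (by omega)
    · by_contra hlt
      push Not at hlt
      have h1 := hC _ hlt
      exact hκ (Nat.find hex) (hr _ (by omega))
    · intro s _ hs hmk
      exact hmin s hs (fun k hk => hmk k (by omega))
  · push Not at hall
    classical
    have hm := Nat.find_spec hall
    have hmin : ∀ m < Nat.find hall, ∀ N', ∃ r ≥ N', mk W H r m := by
      intro m h
      have := Nat.find_min hall h
      push Not at this
      exact this
    set m := Nat.find hall with hmdef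
    have hm9 : 1 < m := by
      by_contra hle
      push Not at hle
      obtain ⟨N', hN'⟩ := hm
      obtain ⟨s, hs, hW0⟩ := hrec N'
      refine hN' s hs (fun k hk => ?_)
      obtain rfl : k = 0 := by omega
      exact hW0
    obtain ⟨N1, hN1⟩ := hm
    obtain ⟨B0, hB0⟩ := switch0 hH hW hNT N N1
    obtain ⟨r, hr, hmk⟩ := hmin (m - 1) (by omega) (max B0 N)
    refine hB0 r (by omega) (m - 1) (by omega) hmk ?_ (by omega)
    intro s hs _
    rw [show m - 1 + 1 = m from by omega]
    exact hN1 s hs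

/-- joining two words at the hub -/
theorem join {α : ℚ} {H : ℕ → A} {l : ℕ} (hH : Hubby α H l)
    (hmid : l = 1 ∨ ((∀ i p, 0 < p → ∃ j ≤ p, H (l + (i + j)) ≠ H (l + (i + j + p))) ∧
      ∃ B, ∀ p e : ℕ, B ≤ p → α * p ≤ e → 2 * p + 2 * l ≤ e)) :
    ∃ B, ∀ (V1 V2 : ℕ → A) (r1 r2 : ℕ), PF α V1 → (∀ k, V1 (r1 + k) = H k) → PF α V2 →
      (∀ k, V2 (r2 + k) = H k) → ∀ n : ℕ, (∀ i < n, H (l + (n - 1 - i)) = H (l + i)) →
      B + r1 + r2 + 2 * l < n → ∀ Y : ℕ → A, (∀ i < r1 + l + n, Y i = V1 i) →
      (∀ i, r1 + l + n ≤ i → i < r1 + l + n + (r2 + l) → Y i = V2 (r1 + l + n + (r2 + l) - 1 - i)) →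
      ∀ i e p : ℕ, 0 < p → α * p ≤ e → i + e ≤ r1 + l + n + (r2 + l) →
        ∃ j, j + p < e ∧ Y (i + j) ≠ Y (i + j + p) := by
  obtain ⟨B, hB⟩ : ∃ B, l = 1 ∨ ((∀ i p, 0 < p → ∃ j ≤ p, H (l + (i + j)) ≠ H (l + (i + j + p))) ∧
      ∀ p e : ℕ, B ≤ p → α * p ≤ e → 2 * p + 2 * l ≤ e) := by
    rcases hmid with h | ⟨h1, B, h2⟩
    · exact ⟨0, Or.inl h⟩
    · exact ⟨B, Or.inr ⟨h1, h2⟩⟩
  refine ⟨2 * B, ?_⟩
  intro V1 V2 r1 r2 s1 hV1 s2 hV2 n hn hnB Y hY1 hY2 i e p hp he hi
  have hY3 : ∀ i, i < l + n → Y (r1 + i) = H i := by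
    intro i hi1
    rw [hY1 _ (by omega), hV1]
  have hY2' : ∀ i, r1 + l ≤ i → i < r1 + l + n + (r2 + l) →
      Y i = V2 (r1 + l + n + (r2 + l) - 1 - i) := by
    intro i hi1 hi2
    rcases Nat.lt_or_ge i (r1 + l + n) with h | h
    · have e1 : i = r1 + (l + (i - r1 - l)) := by omega
      have e2 : r1 + l + n + (r2 + l) - 1 - i = r2 + (l + (n - 1 - (i - r1 - l))) := by omega
      rw [e2, hV2, hn _ (by omega)]
      conv_lhs => rw [e1]
      rw [hY3 _ (by omega)]
    · exact hY2 i h hi2
  have h2e := two_le hH.two he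
  by_contra hcon
  push Not at hcon
  have eqv : ∀ j, i ≤ j → j + p < i + e → Y j = Y (j + p) := by
    intro j h1 h2
    have := hcon (j - i) (by omega)
    rwa [show i + (j - i) = j from by omega] at this
  rcases Nat.lt_or_ge (r1 + l + n) (i + e) with hA | hA
  swap
  · obtain ⟨k, hk, hne⟩ := s1 i e p hp he
    apply hne
    have := hcon k hk
    rwa [hY1 _ (by omega), hY1 _ (by omega)] at this
  rcases Nat.lt_or_ge i (r1 + l) with hBi | hBi
  swap
  · obtain ⟨k, hk, hne⟩ := s2 (r1 + l + n + (r2 + l) - i - e) e p hp he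
    apply hne
    have := hcon (e - 1 - k - p) (by omega)
    rw [hY2' _ (by omega) (by omega), hY2' _ (by omega) (by omega)] at this
    rw [show r1 + l + n + (r2 + l) - i - e + k =
      r1 + l + n + (r2 + l) - 1 - (i + (e - 1 - k - p) + p) from by omega, ← this]
    congr 1
    omega
  have hpn : p < n := by omega
  have hi1 : r1 < i := by
    by_contra hlt
    push Not at hlt
    obtain ⟨k, hk, hne⟩ := hH.h1 p hp
    apply hne
    have := eqv (r1 + k) (by omega) (by omega)
    rwa [hY3 _ (by omega), show r1 + k + p = r1 + (p + k) from by omega, hY3 _ (by omega)] at this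
  have hi2 : i + e < r1 + l + n + l := by
    by_contra hlt
    push Not at hlt
    obtain ⟨k, hk, hne⟩ := hH.h1 p hp
    apply hne
    have := eqv (r1 + l + n + l - 1 - k - p) (by omega) (by omega)
    rw [hY2' _ (by omega) (by omega), hY2' _ (by omega) (by omega),
      show r1 + l + n + (r2 + l) - 1 - (r1 + l + n + l - 1 - k - p) = r2 + (p + k) from by omega,
      show r1 + l + n + (r2 + l) - 1 - (r1 + l + n + l - 1 - k - p + p) = r2 + k from by omega,
      hV2, hV2] at this
    exact this.symm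
  rcases hB with h | ⟨hov, hB2⟩
  · omega
  · have hpn2 : n ≤ 2 * p := by
      by_contra hlt
      push Not at hlt
      obtain ⟨j, hj, hne⟩ := hov 0 p hp
      apply hne
      have := eqv (r1 + (l + (0 + j))) (by omega) (by omega)
      rwa [hY3 _ (by omega), show r1 + (l + (0 + j)) + p = r1 + (l + (0 + j + p)) from by omega,
        hY3 _ (by omega)] at this
    have := hB2 p e (by omega) he
    omega


/-! ### finite words -/

variable {k : ℕ}

theorem Free_iff {α : ℚ} (hα : 0 < α) (w : List (Fin k)) : Free α w ↔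
    ∀ i e p : ℕ, 0 < p → α * p ≤ e → i + e ≤ w.length →
      ∃ j, j + p < e ∧ w[i + j]? ≠ w[i + j + p]? := by
  constructor
  · intro h i e p hp he hi
    by_contra hcon
    push Not at hcon
    have hp' : (0 : ℚ) < p := by exact_mod_cast hp
    have he0 : 0 < e := by
      have : (0 : ℚ) < e := lt_of_lt_of_le (mul_pos hα hp') he
      exact_mod_cast this
    have hlen : ((w.drop i).take e).length = e := by
      rw [List.length_take, List.length_drop]; omega
    have h1 := h (w.take i) ((w.drop i).take e) (w.drop (i + e)) ?_ ?_ p hp ?_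
    · rw [hlen, div_lt_iff₀ hp'] at h1
      exact absurd he (not_le.mpr h1)
    · rw [List.append_assoc, ← List.drop_drop, List.take_append_drop, List.take_append_drop]
    · intro h0
      rw [h0] at hlen
      simp only [List.length_nil] at hlen
      omega
    · intro j hj
      rw [hlen] at hj
      rw [List.getElem?_take_of_lt (by omega), List.getElem?_take_of_lt (by omega),
        List.getElem?_drop, List.getElem?_drop, ← add_assoc]
      exact hcon j hj
  · intro h a y b hw hy p hp hper
    by_contra hlt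
    push Not at hlt
    have hp' : (0 : ℚ) < p := by exact_mod_cast hp
    rw [le_div_iff₀ hp'] at hlt
    obtain ⟨j, hj, hne⟩ := h a.length y.length p hp hlt (by
      rw [hw, List.length_append, List.length_append]; omega)
    apply hne
    have key : ∀ t, t < y.length → w[a.length + t]? = y[t]? := by
      intro t ht
      rw [hw, List.append_assoc, List.getElem?_append_right (by omega),
        List.getElem?_append_left (by omega)]
      congr 1
      omega
    rw [key j (by omega), add_assoc, key (j + p) (by omega)]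
    exact hper j hj

theorem Free_left {α : ℚ} {u v : List (Fin k)} (h : Free α (u ++ v)) : Free α u := by
  intro a y b hu
  exact h a y (b ++ v) (by rw [hu]; simp)

theorem Free_right {α : ℚ} {u v : List (Fin k)} (h : Free α (u ++ v)) : Free α v := by
  intro a y b hu
  exact h (u ++ a) y b (by rw [hu]; simp)

theorem Free_reverse {α : ℚ} {u : List (Fin k)} (h : Free α u) : Free α u.reverse := by
  intro a y b hu hy p hp hper
  have h1 := h b.reverse y.reverse a.reverse (by
    have := congrArg List.reverse hu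
    rw [List.reverse_reverse] at this
    rw [this]; simp) (by simpa using hy) p hp ?_
  · rwa [List.length_reverse] at h1
  · intro i hi
    rw [List.length_reverse] at hi
    rw [List.getElem?_reverse (by omega), List.getElem?_reverse (by omega)]
    have := hper (y.length - 1 - (i + p)) (by omega)
    rw [this]
    congr 1
    omega

/-- infinitely many free words start with `w` -/
def Ext (α : ℚ) (w : List (Fin k)) : Prop := {x : List (Fin k) | Free α (w ++ x)}.Infinite

theorem Ext_step {α : ℚ} {w : List (Fin k)} (h : Ext α w) : ∃ c, Ext α (w ++ [c]) := by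
  by_contra hcon
  push Not at hcon
  unfold Ext at hcon h
  simp only [Set.not_infinite] at hcon
  apply h
  have hsub : {x : List (Fin k) | Free α (w ++ x)} ⊆ {[]} ∪ ⋃ c : Fin k,
      (fun x => c :: x) '' {x : List (Fin k) | Free α (w ++ [c] ++ x)} := by
    intro x hx
    cases x with
    | nil => left; rfl
    | cons c x =>
      right
      rw [Set.mem_iUnion]
      refine ⟨c, x, ?_, rfl⟩
      simpa using hx
  refine Set.Finite.subset ?_ hsub
  refine Set.Finite.union (Set.finite_singleton _) (Set.finite_iUnion fun c => ?_)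
  exact (hcon c).image _

theorem exists_infinite {α : ℚ} (hα : 0 < α) {w : List (Fin k)} (h : Ext α w) :
    ∃ W : ℕ → Fin k, PF α W ∧ ∀ i < w.length, w[i]? = some (W i) := by
  classical
  choose f hf using fun w : {w : List (Fin k) // Ext α w} => Ext_step w.2
  let g : ℕ → {w : List (Fin k) // Ext α w} := fun n =>
    Nat.rec ⟨w, h⟩ (fun _ v => ⟨v.1 ++ [f v], hf v⟩) n
  have g0' : (g 0).1 = w := rfl
  have gs : ∀ n, (g (n + 1)).1 = (g n).1 ++ [f (g n)] := fun n => rfl
  have glen : ∀ n, (g n).1.length = w.length + n := by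
    intro n
    induction n with
    | zero => rw [g0']; rfl
    | succ n ih => rw [gs, List.length_append, ih]; simp; omega
  have gmono : ∀ n m, ∀ i < w.length + n, (g (n + m)).1[i]? = (g n).1[i]? := by
    intro n m
    induction m with
    | zero => intro i _; rfl
    | succ m ih =>
      intro i hi
      rw [← add_assoc, gs, List.getElem?_append_left (by rw [glen]; omega), ih i hi]
  have gW : ∀ n, ∀ i < w.length + n, (g (i + 1)).1[i]? = (g n).1[i]? := by
    intro n i hi
    rcases Nat.le_total n (i + 1) with h1 | h1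
    · obtain ⟨m, hm⟩ := Nat.exists_eq_add_of_le h1
      rw [hm, gmono n m i hi]
    · obtain ⟨m, hm⟩ := Nat.exists_eq_add_of_le h1
      rw [hm, gmono (i + 1) m i (by omega)]
  have gsf : ∀ n, Free α (g n).1 := by
    intro n
    obtain ⟨x, hx⟩ := (g n).2.nonempty
    exact Free_left hx
  have hlt : ∀ i, i < (g (i + 1)).1.length := fun i =>
    lt_of_lt_of_eq (by omega : i < w.length + (i + 1)) (glen (i + 1)).symm
  have hW : ∀ i, (g (i + 1)).1[i]? = some ((g (i + 1)).1[i]'(hlt i)) := fun i =>
    List.getElem?_eq_getElem (hlt i)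
  refine ⟨fun i => (g (i + 1)).1[i]'(hlt i), ?_, ?_⟩
  · intro i e p hp he
    obtain ⟨j, hj, hne⟩ := (Free_iff hα _).mp (gsf (i + e)) i e p hp he (by rw [glen]; omega)
    refine ⟨j, hj, fun heq => hne ?_⟩
    rw [← gW (i + e) (i + j) (by omega), ← gW (i + e) (i + j + p) (by omega), hW, hW]
    exact congrArg some heq
  · intro i hi
    rw [← hW, gW 0 i (by omega), g0']

/-- the transition property -/
def TP (k : ℕ) (α : ℚ) : Prop := ∀ u v : List (Fin k),
  {x : List (Fin k) | Free α (u ++ x)}.Infinite → {x : List (Fin k) | Free α (x ++ v)}.Infinite →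
    ∃ w, Free α (u ++ w ++ v)

theorem TP_of_hub {α : ℚ} {H : ℕ → Fin k} {l : ℕ} (hH : Hubby α H l)
    (hmid : l = 1 ∨ ((∀ i p, 0 < p → ∃ j ≤ p, H (l + (i + j)) ≠ H (l + (i + j + p))) ∧
      ∃ B, ∀ p e : ℕ, B ≤ p → α * p ≤ e → 2 * p + 2 * l ≤ e))
    (hpal : ∀ B, ∃ n ≥ B, ∀ i < n, H (l + (n - 1 - i)) = H (l + i))
    (hreach : ∀ W, PF α W → ∀ N, GoalH α H W N) : TP k α := by
  intro w y hw hy
  have hα : 0 < α := lt_of_lt_of_le (by norm_num) hH.two
  have hy' : Ext α y.reverse := by
    have h1 := hy.image (f := List.reverse) (Function.Injective.injOn List.reverse_injective)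
    refine h1.mono ?_
    rintro _ ⟨x, hx, rfl⟩
    have := Free_reverse hx
    rw [List.reverse_append] at this
    exact this
  obtain ⟨W1, sW1, hW1⟩ := exists_infinite hα hw
  obtain ⟨W2, sW2, hW2⟩ := exists_infinite hα hy'
  obtain ⟨V1, r1, s1, h1, hV1⟩ := hreach W1 sW1 w.length
  obtain ⟨V2, r2, s2, h2, hV2⟩ := hreach W2 sW2 y.length
  obtain ⟨B, hB⟩ := join hH hmid
  obtain ⟨n, hnB, hn⟩ := hpal (B + r1 + r2 + 2 * l + 1 + w.length + y.length)
  set N := r1 + l + n + (r2 + l) with hN
  set Y : ℕ → Fin k := fun i => if i < r1 + l + n then V1 i else V2 (N - 1 - i) with hY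
  have hY1 : ∀ i < r1 + l + n, Y i = V1 i := by
    intro i hi
    simp only [hY]
    rw [if_pos hi]
  have hY2 : ∀ i, r1 + l + n ≤ i → i < r1 + l + n + (r2 + l) →
      Y i = V2 (r1 + l + n + (r2 + l) - 1 - i) := by
    intro i hi1 _
    simp only [hY]
    rw [if_neg (by omega)]
  have hY2' : ∀ i, r1 + l ≤ i → i < N → Y i = V2 (N - 1 - i) := by
    intro i hi1 hi2
    rcases Nat.lt_or_ge i (r1 + l + n) with h | h
    · have e1 : i = r1 + (l + (i - r1 - l)) := by omega
      have e2 : N - 1 - i = r2 + (l + (n - 1 - (i - r1 - l))) := by omega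
      rw [e2, h2, hn _ (by omega), hY1 i h]
      conv_lhs => rw [e1]
      rw [h1]
    · exact hY2 i h hi2
  have hsf := hB V1 V2 r1 r2 s1 h1 s2 h2 n hn (by omega) Y hY1 hY2
  set z : List (Fin k) := (List.range (N - w.length - y.length)).map (fun j => Y (w.length + j))
    with hz
  have hzl : z.length = N - w.length - y.length := by rw [hz]; simp
  have hget : ∀ i < N, (w ++ z ++ y)[i]? = some (Y i) := by
    intro i hi
    rcases Nat.lt_or_ge i w.length with ha | ha
    · rw [List.append_assoc, List.getElem?_append_left ha, hY1 i (by omega), hV1 i ha, hW1 i ha]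
    · rcases Nat.lt_or_ge i (w.length + z.length) with hb | hb
      · rw [List.append_assoc, List.getElem?_append_right ha, List.getElem?_append_left (by omega),
          hz, List.getElem?_map, List.getElem?_range (by omega)]
        simp only [Option.map_some]
        congr 2
        omega
      · rw [List.getElem?_append_right (by rw [List.length_append]; omega), List.length_append,
          hY2' i (by omega) hi, hV2 _ (by omega), ← hW2 _ (by rw [List.length_reverse]; omega),
          List.getElem?_reverse (by omega)]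
        congr 1
        omega
  refine ⟨z, ?_⟩
  rw [Free_iff hα]
  intro i e p hp he hi
  have hlen : (w ++ z ++ y).length = N := by
    rw [List.length_append, List.length_append]; omega
  rw [hlen] at hi
  obtain ⟨j, hj, hne⟩ := hsf i e p hp he hi
  refine ⟨j, hj, ?_⟩
  rw [hget _ (by omega), hget _ (by omega)]
  exact fun h => hne (Option.some.inj h)

/-! ### hubs marked by a letter -/

theorem exists_rec_letter (W : ℕ → Fin k) : ∃ y, ∀ N, ∃ s ≥ N, W s = y := by
  by_contra hcon
  push Not at hcon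
  choose f hf using hcon
  obtain ⟨B, hB⟩ : ∃ B, ∀ y, f y ≤ B := by
    refine ⟨∑ y, f y, fun y => Finset.single_le_sum (fun _ _ => Nat.zero_le _) (Finset.mem_univ y)⟩
  exact hf (W B) B (hB _) rfl

def hubL (x : Fin k) (T : ℕ → Fin k) : ℕ → Fin k
  | 0 => x
  | i + 1 => T i

theorem hubL_hubby {α : ℚ} (hα : 2 ≤ α) {x : Fin k} {T : ℕ → Fin k} (hT : PF α T)
    (hx : ∀ i, T i ≠ x) : Hubby α (hubL x T) 1 where
  two := hα
  pos := le_rfl
  h1 := by
    intro q hq
    obtain ⟨q', rfl⟩ : ∃ q', q = q' + 1 := ⟨q - 1, by omega⟩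
    exact ⟨0, by omega, (hx q').symm⟩
  h2 := by intro a ha p hp hpa; omega
  h3 := by
    intro i e p hi hp he
    obtain ⟨i', rfl⟩ : ∃ i', i = i' + 1 := ⟨i - 1, by omega⟩
    obtain ⟨j, hj, hne⟩ := hT i' e p hp he
    refine ⟨j, hj, ?_⟩
    rw [show i' + 1 + j = (i' + j) + 1 from by omega,
      show i' + j + 1 + p = (i' + j + p) + 1 from by omega]
    exact hne
  h4 := by
    intro p e _ he
    have := two_le hα he
    omega

theorem PF_map {α : ℚ} {T : ℕ → Fin k} (hT : PF α T) {m : ℕ} (σ : Fin k → Fin m)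
    (hσ : Function.Injective σ) : PF α (fun i => σ (T i)) := by
  intro i e p hp he
  obtain ⟨j, hj, hne⟩ := hT i e p hp he
  exact ⟨j, hj, fun h => hne (hσ h)⟩

theorem reachL {α : ℚ} (hα : 2 ≤ α) {x z : Fin k} {T : ℕ → Fin k} (hT : PF α T)
    (hx : ∀ i, T i ≠ x) (hz : ∀ N, ∃ s ≥ N, T s = z) (W : ℕ → Fin k) (hW : PF α W) (N : ℕ) :
    GoalH α (hubL x T) W N := by
  obtain ⟨y, hy⟩ := exists_rec_letter W
  have hzx : z ≠ x := by
    obtain ⟨s, -, hs⟩ := hz 0
    rw [← hs]; exact hx s
  by_cases hyx : y = x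
  · subst hyx
    exact switch (hubL_hubby hα hT hx) hW hy N
  · let π : Fin k ≃ Fin k := (Equiv.swap z x).trans (Equiv.swap z y)
    have hπx : π x = y := by
      simp only [π, Equiv.trans_apply, Equiv.swap_apply_right, Equiv.swap_apply_left]
    have hπz : π z = x := by
      simp only [π, Equiv.trans_apply, Equiv.swap_apply_left]
      exact Equiv.swap_apply_of_ne_of_ne hzx.symm (Ne.symm hyx)
    have hT1 : PF α (fun i => π (T i)) := PF_map hT π π.injective
    have hT1y : ∀ i, π (T i) ≠ y := by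
      intro i h
      rw [← hπx] at h
      exact hx i (π.injective h)
    obtain ⟨V, r, sV, hV, hVW⟩ := switch (hubL_hubby hα hT1 hT1y) hW hy N
    have hrec : ∀ N', ∃ s ≥ N', V s = x := by
      intro N'
      obtain ⟨s, hs, hs2⟩ := hz N'
      refine ⟨r + (s + 1), by omega, ?_⟩
      rw [hV]
      show π (T s) = x
      rw [hs2, hπz]
    obtain ⟨V', r', sV', hV', hVW'⟩ := switch (hubL_hubby hα hT hx) sV hrec N
    exact ⟨V', r', sV', hV', fun i hi => (hVW' i hi).trans (hVW i hi)⟩

theorem TP_letter {α : ℚ} (hα : 2 ≤ α) {x z : Fin k} {T : ℕ → Fin k} (hT : PF α T)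
    (hx : ∀ i, T i ≠ x) (hz : ∀ N, ∃ s ≥ N, T s = z)
    (hpal : ∀ B, ∃ n ≥ B, ∀ i < n, T (n - 1 - i) = T i) : TP k α := by
  refine TP_of_hub (hubL_hubby hα hT hx) (Or.inl rfl) ?_ (reachL hα hT hx hz)
  intro B
  obtain ⟨n, hn, h⟩ := hpal B
  refine ⟨n, hn, fun i hi => ?_⟩
  have := h i hi
  rw [show 1 + (n - 1 - i) = (n - 1 - i) + 1 from by omega, show 1 + i = i + 1 from by omega]
  exact this

end Pool.Agent.Helper131.Trans
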