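import Mathlib
import Pool.Agent.Helper131.FreeDef
import Pool.Agent.Helper131.Trans

/-! Power-freeness of a finite word is a primitive recursive predicate, and the transition problem
is decidable as soon as the transition property holds. -/

set_option autoImplicit false

namespace Pool.Agent.Helper131.Comp

open Pool.Agent.Helper131 (Free)
open Pool.Agent.Helper131.Trans

section general

variable {α β : Type} [Primcodable α] [Primcodable β]

theorem pp_forall {f : α → List β} {P : α → β → Prop} (hf : Primrec f)
    (hP : PrimrecPred fun p : α × β => P p.1 p.2) : PrimrecPred fun a => ∀ b ∈ f a, P a b := by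
  have h1 : PrimrecRel fun (b : β) (a : α) => P a b :=
    PrimrecPred.comp hP (Primrec.pair Primrec.snd Primrec.fst)
  exact h1.forall_mem_list.comp hf Primrec.id

theorem pp_exists {f : α → List β} {P : α → β → Prop} (hf : Primrec f)
    (hP : PrimrecPred fun p : α × β => P p.1 p.2) : PrimrecPred fun a => ∃ b ∈ f a, P a b := by
  have h1 : PrimrecRel fun (b : β) (a : α) => P a b :=
    PrimrecPred.comp hP (Primrec.pair Primrec.snd Primrec.fst)
  exact h1.exists_mem_list.comp hf Primrec.id

theorem pp_imp {P Q : α → Prop} (hP : PrimrecPred P) (hQ : PrimrecPred Q) :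
    PrimrecPred fun a => (P a → Q a) := by
  classical
  refine (hP.not.or hQ).of_eq fun a => ?_
  tauto

/-- a projection of a primitive recursive relation is recursively enumerable -/
theorem re_exists {P : α → β → Prop}
    (hP : PrimrecPred fun p : α × β => P p.1 p.2) : REPred fun a => ∃ b, P a b := by
  classical
  have h1 : Primrec₂ fun (a : α) (n : ℕ) =>
      (((Encodable.decode n : Option β).map fun b => decide (P a b)).getD false) := by
    refine Primrec.option_getD.comp ?_ (Primrec.const false)
    refine Primrec.option_map (Primrec.decode.comp Primrec.snd) ?_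
    exact (hP.decide).comp ((Primrec.fst.comp Primrec.fst).pair Primrec.snd)
  let F : α → ℕ →. Bool := fun a n =>
    Part.some (((Encodable.decode n : Option β).map fun b => decide (P a b)).getD false)
  have h2 : Partrec fun a : α => Nat.rfind (F a) := Partrec.rfind h1.to_comp.partrec
  refine (h2.dom_re).of_eq fun a => ?_
  refine Nat.rfind_dom.trans ?_
  constructor
  · rintro ⟨n, hn, _⟩
    replace hn : true ∈ (Part.some (((Encodable.decode n : Option β).map fun b =>
      decide (P a b)).getD false) : Part Bool) := hn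
    rw [Part.mem_some_iff] at hn
    cases h : (Encodable.decode n : Option β) with
    | none => rw [h] at hn; simp at hn
    | some b =>
      rw [h] at hn
      simp at hn
      exact ⟨b, hn⟩
  · rintro ⟨b, hb⟩
    refine ⟨Encodable.encode b, ?_, fun _ => trivial⟩
    change true ∈ (Part.some (((Encodable.decode (Encodable.encode b) : Option β).map fun b =>
      decide (P a b)).getD false) : Part Bool)
    simp [Encodable.encodek, hb]

end general

variable {k : ℕ}

/-- all words of length `n` -/
def words (k n : ℕ) : List (List (Fin k)) :=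
  Nat.rec [[]] (fun _ B => B.flatMap fun w => (List.finRange k).map fun c => c :: w) n

theorem words_succ (n : ℕ) : words k (n + 1) =
    (words k n).flatMap fun w => (List.finRange k).map fun c => c :: w := rfl

theorem mem_words : ∀ (n : ℕ) (w : List (Fin k)), w ∈ words k n ↔ w.length = n := by
  intro n
  induction n with
  | zero => intro w; simp [words]
  | succ n ih =>
    intro w
    rw [words_succ, List.mem_flatMap]
    constructor
    · rintro ⟨v, hv, h⟩
      rw [List.mem_map] at h
      obtain ⟨c, -, rfl⟩ := h
      rw [List.length_cons, (ih v).mp hv]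
    · intro h
      cases w with
      | nil => simp at h
      | cons c v =>
        refine ⟨v, (ih v).mpr (by simpa using h), ?_⟩
        rw [List.mem_map]
        exact ⟨c, List.mem_finRange c, rfl⟩

theorem pr_words : Primrec (words k) := by
  have h : Primrec₂ fun (_ : ℕ) (B : List (List (Fin k))) =>
      B.flatMap fun w => (List.finRange k).map fun c => c :: w := by
    refine Primrec.list_flatMap Primrec.snd ?_
    refine Primrec.list_map (Primrec.const _) ?_
    exact Primrec.list_cons.comp Primrec.snd (Primrec.snd.comp Primrec.fst)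
  exact Primrec.nat_rec₁ _ h

/-- the test for one quadruple of numbers -/
theorem pp_free {α : ℚ} (hα : 1 ≤ α) : PrimrecPred fun w : List (Fin k) => Free α w := by
  classical
  obtain ⟨a, b, hb, hab⟩ : ∃ a b : ℕ, 0 < b ∧ α = (a : ℚ) / b := by
    refine ⟨α.num.toNat, α.den, α.den_pos, ?_⟩
    have h1 : (0 : ℤ) ≤ α.num := Rat.num_nonneg.mpr (by linarith)
    have h2 : ((α.num.toNat : ℤ)) = α.num := Int.toNat_of_nonneg h1
    have h3 : ((α.num.toNat : ℕ) : ℚ) = (α.num : ℚ) := by exact_mod_cast h2
    rw [h3]
    exact (Rat.num_div_den α).symm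
  have hle : ∀ p e : ℕ, α * p ≤ e ↔ a * p ≤ b * e := by
    intro p e
    have hb' : (0 : ℚ) < b := by exact_mod_cast hb
    rw [hab, div_mul_eq_mul_div, div_le_iff₀ hb', mul_comm (e : ℚ) b]
    exact_mod_cast Iff.rfl
  have hbound : ∀ w : List (Fin k), Free α w ↔
      ∀ i ∈ List.range (w.length + 1), ∀ e ∈ List.range (w.length + 1),
      ∀ p ∈ List.range (w.length + 1), (0 < p ∧ a * p ≤ b * e ∧ i + e ≤ w.length) →
        ∃ j ∈ List.range (w.length + 1), j + p < e ∧ w[i + j]? ≠ w[i + j + p]? := by
    intro w
    rw [Free_iff (by linarith)]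
    constructor
    · rintro h i - e - p - ⟨hp, he, hi⟩
      obtain ⟨j, hj, hne⟩ := h i e p hp ((hle p e).mpr he) hi
      exact ⟨j, List.mem_range.mpr (by omega), hj, hne⟩
    · intro h i e p hp he hi
      have hpe : p ≤ e := by
        have h1 : (1 : ℚ) * p ≤ α * p := mul_le_mul_of_nonneg_right hα (Nat.cast_nonneg p)
        have h2 : (p : ℚ) ≤ e := by linarith
        exact_mod_cast h2
      obtain ⟨j, -, hj, hne⟩ := h i (List.mem_range.mpr (by omega)) e
        (List.mem_range.mpr (by omega)) p (List.mem_range.mpr (by omega))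
        ⟨hp, (hle p e).mp he, hi⟩
      exact ⟨j, hj, hne⟩
  refine PrimrecPred.of_eq ?_ fun w => (hbound w).symm
  have hlen : Primrec fun w : List (Fin k) => List.range (w.length + 1) :=
    Primrec.list_range.comp (Primrec.succ.comp Primrec.list_length)
  refine pp_forall hlen ?_
  refine pp_forall (hlen.comp Primrec.fst) ?_
  refine pp_forall (hlen.comp (Primrec.fst.comp Primrec.fst)) ?_
  -- context `((w, i), e), p`
  have cw : Primrec fun q : ((List (Fin k) × ℕ) × ℕ) × ℕ => q.1.1.1 :=
    Primrec.fst.comp (Primrec.fst.comp Primrec.fst)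
  have ci : Primrec fun q : ((List (Fin k) × ℕ) × ℕ) × ℕ => q.1.1.2 :=
    Primrec.snd.comp (Primrec.fst.comp Primrec.fst)
  have ce : Primrec fun q : ((List (Fin k) × ℕ) × ℕ) × ℕ => q.1.2 :=
    Primrec.snd.comp Primrec.fst
  have cp : Primrec fun q : ((List (Fin k) × ℕ) × ℕ) × ℕ => q.2 := Primrec.snd
  refine pp_imp ?_ ?_
  · refine PrimrecPred.and (Primrec.nat_lt.comp (Primrec.const 0) cp) ?_
    refine PrimrecPred.and ?_ ?_
    · exact Primrec.nat_le.comp (Primrec.nat_mul.comp (Primrec.const a) cp)
        (Primrec.nat_mul.comp (Primrec.const b) ce)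
    · exact Primrec.nat_le.comp (Primrec.nat_add.comp ci ce) (Primrec.list_length.comp cw)
  · refine pp_exists (hlen.comp cw) ?_
    have dw : Primrec fun q : (((List (Fin k) × ℕ) × ℕ) × ℕ) × ℕ => q.1.1.1.1 := cw.comp Primrec.fst
    have di : Primrec fun q : (((List (Fin k) × ℕ) × ℕ) × ℕ) × ℕ => q.1.1.1.2 := ci.comp Primrec.fst
    have de : Primrec fun q : (((List (Fin k) × ℕ) × ℕ) × ℕ) × ℕ => q.1.1.2 := ce.comp Primrec.fst
    have dp : Primrec fun q : (((List (Fin k) × ℕ) × ℕ) × ℕ) × ℕ => q.1.2 := cp.comp Primrec.fst
    have dj : Primrec fun q : (((List (Fin k) × ℕ) × ℕ) × ℕ) × ℕ => q.2 := Primrec.snd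
    refine PrimrecPred.and (Primrec.nat_lt.comp (Primrec.nat_add.comp dj dp) de) ?_
    refine PrimrecPred.not ?_
    exact Primrec.eq.comp (Primrec.list_getElem?.comp dw (Primrec.nat_add.comp di dj))
      (Primrec.list_getElem?.comp dw (Primrec.nat_add.comp (Primrec.nat_add.comp di dj) dp))

/-- a finite certificate that there is no transition -/
def Blocked (α : ℚ) (q : List (Fin k) × List (Fin k)) (n : ℕ) : Prop :=
  ((∀ x ∈ words k n, ¬ Free α (q.1 ++ x)) ∨ (∀ x ∈ words k n, ¬ Free α (x ++ q.2))) ∧
    ∀ m ∈ List.range n, ∀ w ∈ words k m, ¬ Free α (q.1 ++ w ++ q.2)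

theorem pp_blocked {α : ℚ} (hα : 1 ≤ α) :
    PrimrecPred fun p : (List (Fin k) × List (Fin k)) × ℕ => Blocked α p.1 p.2 := by
  classical
  have hF := pp_free (k := k) hα
  unfold Blocked
  refine PrimrecPred.and (PrimrecPred.or ?_ ?_) ?_
  · refine pp_forall (pr_words.comp Primrec.snd) (PrimrecPred.not ?_)
    exact hF.comp (Primrec.list_append.comp
      (Primrec.fst.comp (Primrec.fst.comp Primrec.fst)) Primrec.snd)
  · refine pp_forall (pr_words.comp Primrec.snd) (PrimrecPred.not ?_)
    exact hF.comp (Primrec.list_append.comp Primrec.snd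
      (Primrec.snd.comp (Primrec.fst.comp Primrec.fst)))
  · refine pp_forall (Primrec.list_range.comp Primrec.snd) ?_
    refine pp_forall (pr_words.comp Primrec.snd) (PrimrecPred.not ?_)
    refine hF.comp (Primrec.list_append.comp (Primrec.list_append.comp ?_ Primrec.snd) ?_)
    · exact Primrec.fst.comp (Primrec.fst.comp (Primrec.fst.comp Primrec.fst))
    · exact Primrec.snd.comp (Primrec.fst.comp (Primrec.fst.comp Primrec.fst))

theorem len_bound {S : Set (List (Fin k))} (h : S.Finite) : ∃ n, ∀ x ∈ S, x.length < n := by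
  obtain ⟨n, hn⟩ := (h.image List.length).bddAbove
  exact ⟨n + 1, fun x hx => Nat.lt_succ_of_le (hn ⟨x, hx, rfl⟩)⟩

theorem blocked_iff {α : ℚ} (hTP : TP k α) (q : List (Fin k) × List (Fin k)) :
    (∃ n, Blocked α q n) ↔ ¬ ∃ w, Free α (q.1 ++ w ++ q.2) := by
  constructor
  · rintro ⟨n, h1, h2⟩ ⟨w, hw⟩
    rcases Nat.lt_or_ge w.length n with h | h
    · exact h2 w.length (List.mem_range.mpr h) w ((mem_words _ _).mpr rfl) hw
    · rcases h1 with h1 | h1
      · refine h1 (w.take n) ((mem_words _ _).mpr (by rw [List.length_take]; omega)) ?_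
        refine Free_left (v := w.drop n ++ q.2) ?_
        have e : q.1 ++ w.take n ++ (w.drop n ++ q.2) = q.1 ++ w ++ q.2 := by
          rw [List.append_assoc, ← List.append_assoc (w.take n), List.take_append_drop,
            ← List.append_assoc]
        rw [e]
        exact hw
      · refine h1 (w.drop (w.length - n))
          ((mem_words _ _).mpr (by rw [List.length_drop]; omega)) ?_
        refine Free_right (u := q.1 ++ w.take (w.length - n)) ?_
        have e : q.1 ++ w.take (w.length - n) ++ (w.drop (w.length - n) ++ q.2) =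
            q.1 ++ w ++ q.2 := by
          rw [List.append_assoc, ← List.append_assoc (w.take _), List.take_append_drop,
            ← List.append_assoc]
        rw [e]
        exact hw
  · intro hno
    have key : ∃ n, (∀ x ∈ words k n, ¬ Free α (q.1 ++ x)) ∨
        (∀ x ∈ words k n, ¬ Free α (x ++ q.2)) := by
      by_cases hr : {x : List (Fin k) | Free α (q.1 ++ x)}.Infinite
      · by_cases hl : {x : List (Fin k) | Free α (x ++ q.2)}.Infinite
        · exact absurd (hTP q.1 q.2 hr hl) hno
        · obtain ⟨n, hn⟩ := len_bound (Set.not_infinite.mp hl)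
          refine ⟨n, Or.inr fun x hx hf => ?_⟩
          have := hn x hf
          rw [(mem_words _ _).mp hx] at this
          omega
      · obtain ⟨n, hn⟩ := len_bound (Set.not_infinite.mp hr)
        refine ⟨n, Or.inl fun x hx hf => ?_⟩
        have := hn x hf
        rw [(mem_words _ _).mp hx] at this
        omega
    obtain ⟨n, hn⟩ := key
    exact ⟨n, hn, fun m _ w _ hw => hno ⟨w, hw⟩⟩

/-- the transition property makes the transition problem decidable -/
theorem decidable_of_TP {α : ℚ} (hα : 1 ≤ α) (hTP : TP k α) :
    ComputablePred fun q : List (Fin k) × List (Fin k) => ∃ w, Free α (q.1 ++ w ++ q.2) := by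
  rw [ComputablePred.computable_iff_re_compl_re']
  constructor
  · refine re_exists (P := fun (q : List (Fin k) × List (Fin k)) (w : List (Fin k)) =>
      Free α (q.1 ++ w ++ q.2)) ?_
    refine (pp_free (k := k) hα).comp (Primrec.list_append.comp (Primrec.list_append.comp
      (Primrec.fst.comp Primrec.fst) Primrec.snd) (Primrec.snd.comp Primrec.fst))
  · exact (re_exists (pp_blocked (k := k) hα)).of_eq fun q => blocked_iff hTP q

end Pool.Agent.Helper131.Comp
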