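import Mathlib
import Pool.Agent.Helper131.FreeDef
import Pool.Agent.Helper131.Trans
import Pool.Agent.Helper131.Tern

/-! The transition property for all alphabets and all exponents at least 2, except for two letters
and exponents in `(2, 3]`. -/

set_option autoImplicit false

namespace Pool.Agent.Helper131.Fam

open Pool.Agent.Helper131 (Free)
open Pool.Agent.Helper131.Trans
open Pool.Agent.Helper131.Tern (tm tm_mirror tm_overlap_free tm_pair_odd tm_false_unbounded)

/-! ### at least four letters -/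

theorem PF_T {α : ℚ} (hα : 2 ≤ α) : PF α Tern.T := by
  intro i e p hp he
  have := two_le hα he
  obtain ⟨j, hj, hne⟩ := Tern.T_sf i p hp
  exact ⟨j, by omega, by rwa [show i + j + p = i + p + j from by omega]⟩

theorem TP_four {k : ℕ} (hk : 4 ≤ k) {α : ℚ} (hα : 2 ≤ α) : TP k α := by
  refine TP_letter (x := (⟨3, by omega⟩ : Fin k)) (z := (⟨0, by omega⟩ : Fin k))
    (T := fun i => Fin.castLE (by omega) (Tern.T i)) hα ?_ ?_ ?_ ?_
  · exact PF_map (PF_T hα) (Fin.castLE (by omega)) (Fin.castLE_injective _)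
  · intro i h
    have h1 := congrArg Fin.val h
    have h2 := (Tern.T i).isLt
    simp only [Fin.val_castLE] at h1
    omega
  · intro N
    obtain ⟨m, hm, hm2⟩ := tm_false_unbounded N
    refine ⟨32 * m + 2, by omega, ?_⟩
    show Fin.castLE _ (Tern.T (32 * m + 2)) = _
    rw [Tern.T_block hm2 (by omega), Tern.T2]
    rfl
  · intro B
    obtain ⟨l, hl, h⟩ := Tern.exists_mirror B
    refine ⟨l, hl, fun i hi => ?_⟩
    show Fin.castLE _ (Tern.T (l - 1 - i)) = Fin.castLE _ (Tern.T i)
    rw [h i hi]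

/-! ### three letters, exponent above two -/

theorem gt_two {α : ℚ} (h : 2 < α) {p e : ℕ} (hp : 0 < p) (he : α * p ≤ e) : 2 * p + 1 ≤ e := by
  have hp' : (0 : ℚ) < p := by exact_mod_cast hp
  have h1 : (2 : ℚ) * p < α * p := mul_lt_mul_of_pos_right h hp'
  have h2 : (2 : ℚ) * p < e := lt_of_lt_of_le h1 he
  have h3 : 2 * p < e := by exact_mod_cast h2
  omega

theorem gt_three {α : ℚ} (h : 3 < α) {p e : ℕ} (hp : 0 < p) (he : α * p ≤ e) : 3 * p + 1 ≤ e := by
  have hp' : (0 : ℚ) < p := by exact_mod_cast hp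
  have h1 : (3 : ℚ) * p < α * p := mul_lt_mul_of_pos_right h hp'
  have h2 : (3 : ℚ) * p < e := lt_of_lt_of_le h1 he
  have h3 : 3 * p < e := by exact_mod_cast h2
  omega

theorem tm_ne (i : ℕ) {p : ℕ} (hp : 0 < p) : ∃ j ≤ p, tm (i + j) ≠ tm (i + p + j) := by
  have := tm_overlap_free p hp i
  push Not at this
  exact this

theorem tm_mirror_even (m : ℕ) : ∀ i < 2 ^ (2 * m), tm (2 ^ (2 * m) - 1 - i) = tm i := by
  intro i hi
  rw [tm_mirror (2 * m) i hi]
  simp

theorem tm_pal (B : ℕ) : ∃ n ≥ B, ∀ i < n, tm (n - 1 - i) = tm i := by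
  refine ⟨2 ^ (2 * B), ?_, tm_mirror_even B⟩
  have : 2 * B < 2 ^ (2 * B) := Nat.lt_two_pow_self
  omega

theorem TP_three {α : ℚ} (hα : 2 < α) : TP 3 α := by
  refine TP_letter (x := (2 : Fin 3)) (z := (0 : Fin 3))
    (T := fun i => if tm i then (1 : Fin 3) else 0) hα.le ?_ ?_ ?_ ?_
  · intro i e p hp he
    have h2 := gt_two hα hp he
    obtain ⟨j, hj, hne⟩ := tm_ne i hp
    refine ⟨j, by omega, ?_⟩
    rw [show i + j + p = i + p + j from by omega]
    intro h
    have h' : (if tm (i + j) then (1 : Fin 3) else 0) = if tm (i + p + j) then 1 else 0 := h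
    apply hne
    revert h'
    cases tm (i + j) <;> cases tm (i + p + j) <;> simp
  · intro i h
    revert h
    cases tm i <;> decide
  · intro N
    obtain ⟨m, hm, hm2⟩ := tm_false_unbounded N
    exact ⟨m, hm, by simp [hm2]⟩
  · intro B
    obtain ⟨n, hn, h⟩ := tm_pal B
    exact ⟨n, hn, fun i hi => by simp only [h i hi]⟩

/-! ### three letters, exponent two -/

theorem SF_of_PF {W : ℕ → Fin 3} (h : PF 2 W) : Tern.SF W := by
  intro i p hp
  obtain ⟨j, hj, hne⟩ := h i (2 * p) p hp (by push_cast; exact le_rfl)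
  exact ⟨j, by omega, by rwa [show i + p + j = i + j + p from by omega]⟩

theorem Free_two_iff (w : List (Fin 3)) : Free 2 w ↔ Tern.LSF w := by
  rw [Free_iff (by norm_num), Tern.LSF_iff]
  constructor
  · intro h i p hp hi
    obtain ⟨j, hj, hne⟩ := h i (2 * p) p hp (by push_cast; exact le_rfl) hi
    refine ⟨j, by omega, fun heq => hne ?_⟩
    rw [List.getD_eq_getElem _ _ (by omega), List.getD_eq_getElem _ _ (by omega)] at heq
    rw [List.getElem?_eq_getElem (by omega), List.getElem?_eq_getElem (by omega)]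
    refine congrArg some ?_
    rw [heq]
    congr 1
    omega
  · intro h i e p hp he hi
    have h2 := two_le le_rfl he
    obtain ⟨j, hj, hne⟩ := h i p hp (by omega)
    refine ⟨j, by omega, fun heq => hne ?_⟩
    rw [List.getElem?_eq_getElem (by omega), List.getElem?_eq_getElem (by omega)] at heq
    rw [List.getD_eq_getElem _ _ (by omega), List.getD_eq_getElem _ _ (by omega)]
    have := Option.some.inj heq
    rw [this]
    congr 1
    omega

theorem TP_three_two : TP 3 2 := by
  intro u v hu hv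
  simp only [Free_two_iff] at hu hv ⊢
  exact Tern.bridge u v hu hv

/-! ### two letters, exponent above three -/

theorem tm_no_three (i : ℕ) : ¬ (tm i = tm (i + 1) ∧ tm (i + 1) = tm (i + 2)) := by
  rintro ⟨h1, h2⟩
  have := tm_pair_odd h1
  have := tm_pair_odd (j := i + 1) h2
  omega

/-- `1 0^J` followed by the complement of the Thue-Morse word -/
def hub2 (J : ℕ) (i : ℕ) : Fin 2 :=
  if i = 0 then 1 else if i ≤ J then 0 else if tm (i - (J + 1)) then 0 else 1

theorem hub2_zero (J : ℕ) : hub2 J 0 = 1 := rfl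

theorem hub2_mid {J i : ℕ} (h0 : 0 < i) (h1 : i ≤ J) : hub2 J i = 0 := by
  unfold hub2
  rw [if_neg (by omega), if_pos h1]

theorem hub2_tail (J i : ℕ) : hub2 J (J + 1 + i) = if tm i then 0 else 1 := by
  unfold hub2
  rw [if_neg (by omega), if_neg (by omega), show J + 1 + i - (J + 1) = i from by omega]

theorem hub2_tail_inj {J i j : ℕ} (h : hub2 J (J + 1 + i) = hub2 J (J + 1 + j)) : tm i = tm j := by
  rw [hub2_tail, hub2_tail] at h
  revert h
  cases tm i <;> cases tm j <;> simp

theorem tail_ne (J i : ℕ) {p : ℕ} (hp : 0 < p) :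
    ∃ j ≤ p, hub2 J (J + 1 + (i + j)) ≠ hub2 J (J + 1 + (i + j + p)) := by
  obtain ⟨j, hj, hne⟩ := tm_ne i hp
  refine ⟨j, hj, fun h => hne ?_⟩
  rw [show i + p + j = i + j + p from by omega]
  exact hub2_tail_inj h

theorem hub2_hubby {α : ℚ} {J : ℕ} (hJ3 : 3 ≤ J) (hJ : (J : ℚ) < α) : Hubby α (hub2 J) (J + 1) := by
  have hα : 3 < α := lt_of_le_of_lt (by exact_mod_cast hJ3) hJ
  have hno : ∀ q, J + 1 ≤ q → ¬ (hub2 J q = 0 ∧ hub2 J (q + 1) = 0 ∧ hub2 J (q + 2) = 0) := by
    rintro q hq ⟨h0, h1, h2⟩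
    obtain ⟨i, rfl⟩ : ∃ i, q = J + 1 + i := ⟨q - (J + 1), by omega⟩
    exact tm_no_three i ⟨hub2_tail_inj (J := J) (by rw [h0]; exact h1.symm),
      hub2_tail_inj (J := J) (i := i + 1) (j := i + 2) (h1.trans h2.symm)⟩
  refine ⟨by linarith, by omega, ?_, ?_, ?_, ?_⟩
  · intro q hq
    rcases Nat.lt_or_ge J q with h | h
    · by_contra hcon
      push Not at hcon
      refine hno (q + 1) (by omega) ⟨?_, ?_, ?_⟩
      · rw [← hcon 1 (by omega), hub2_mid (by omega) (by omega)]
      · rw [show q + 1 + 1 = q + 2 from rfl, ← hcon 2 (by omega), hub2_mid (by omega) (by omega)]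
      · rw [show q + 1 + 2 = q + 3 from rfl, ← hcon 3 (by omega), hub2_mid (by omega) (by omega)]
    · refine ⟨0, by omega, ?_⟩
      rw [add_zero, hub2_zero, hub2_mid hq h]
      decide
  · intro a ha p hp hpa
    refine ⟨0, by omega, ?_⟩
    rw [zero_add, hub2_zero, hub2_mid hp (by omega)]
    decide
  · intro i e p hi hp he
    by_contra hcon
    push Not at hcon
    have h3 := gt_three hα hp he
    rcases Nat.lt_or_ge J i with h | h
    · obtain ⟨j, hj, hne⟩ := tail_ne J (i - (J + 1)) hp
      apply hne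
      have := hcon j (by omega)
      rwa [show i + j = J + 1 + (i - (J + 1) + j) from by omega, add_assoc (J + 1)] at this
    · have hone : hub2 J (J + 1) = 1 := by
        have := hub2_tail J 0
        rw [add_zero] at this
        rw [this]; rfl
      have hzero : ∀ t, i + t ≤ J → hub2 J (i + t) = 0 := fun t ht =>
        hub2_mid (by omega) ht
      have heb : J + 1 < i + e := by
        by_contra hlt
        push Not at hlt
        have h4 : (J : ℚ) < e := by
          calc (J : ℚ) < α := hJ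
            _ = α * 1 := (mul_one α).symm
            _ ≤ α * p := mul_le_mul_of_nonneg_left (by exact_mod_cast hp) (by linarith)
            _ ≤ e := he
        have h5 : J < e := by exact_mod_cast h4
        omega
      rcases Nat.lt_or_ge (J + 1 - i) 3 with hb | hb
      · rcases Nat.lt_or_ge p 2 with hp2 | hp2
        · obtain rfl : p = 1 := by omega
          have := hcon (J - i) (by omega)
          rw [hzero (J - i) (by omega), show i + (J - i) + 1 = J + 1 from by omega, hone] at this
          exact absurd this (by decide)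
        · obtain ⟨j, hj, hne⟩ := tail_ne J 0 hp
          apply hne
          have := hcon (J + 1 - i + j) (by omega)
          rwa [show i + (J + 1 - i + j) = J + 1 + (0 + j) from by omega, add_assoc (J + 1)] at this
      · rcases Nat.lt_or_ge (J + 1 - i) p with hpb | hpb
        · refine hno (i + p) (by omega) ⟨?_, ?_, ?_⟩
          · have := hcon 0 (by omega)
            rw [hzero 0 (by omega)] at this
            exact this.symm
          · have := hcon 1 (by omega)
            rw [hzero 1 (by omega)] at this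
            rw [show i + p + 1 = i + 1 + p from by omega]
            exact this.symm
          · have := hcon 2 (by omega)
            rw [hzero 2 (by omega)] at this
            rw [show i + p + 2 = i + 2 + p from by omega]
            exact this.symm
        · have := hcon (J + 1 - i - p) (by omega)
          rw [hzero _ (by omega), show i + (J + 1 - i - p) + p = J + 1 from by omega, hone] at this
          exact absurd this (by decide)
  · intro p e hp he
    have := gt_three hα (by omega) he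
    omega

theorem two_cases (x : Fin 2) : x = 0 ∨ x = 1 := by
  revert x; decide

theorem TP_two {α : ℚ} (hα : 3 < α) : TP 2 α := by
  obtain ⟨J, hJ1, hJ2⟩ : ∃ J : ℕ, (J : ℚ) < α ∧ α ≤ J + 1 := by
    refine ⟨⌈α⌉₊ - 1, ?_, ?_⟩
    · have h1 : ⌈α⌉₊ - 1 < ⌈α⌉₊ := by
        have : 0 < ⌈α⌉₊ := Nat.ceil_pos.mpr (by linarith)
        omega
      exact Nat.lt_ceil.mp h1
    · have h1 : α ≤ ⌈α⌉₊ := Nat.le_ceil α
      have h2 : 0 < ⌈α⌉₊ := Nat.ceil_pos.mpr (by linarith)
      have h3 : ((⌈α⌉₊ - 1 : ℕ) : ℚ) + 1 = ⌈α⌉₊ := by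
        have : (⌈α⌉₊ - 1) + 1 = ⌈α⌉₊ := by omega
        exact_mod_cast this
      rw [h3]; exact h1
  have hJ3 : 3 ≤ J := by
    have h1 : (3 : ℚ) < J + 1 := lt_of_lt_of_le hα hJ2
    have h2 : 3 < J + 1 := by exact_mod_cast h1
    omega
  have hH := hub2_hubby hJ3 hJ1
  refine TP_of_hub hH (Or.inr ⟨fun i p hp => tail_ne J i hp, 2 * (J + 1), ?_⟩) ?_ ?_
  · intro p e hp he
    have := gt_three hα (by omega) he
    omega
  · intro B
    obtain ⟨n, hn, h⟩ := tm_pal B
    refine ⟨n, hn, fun i hi => ?_⟩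
    rw [hub2_tail, hub2_tail, h i hi]
  · intro W hW N
    refine switch hH hW ?_ N
    rw [hub2_zero]
    by_contra hcon
    push Not at hcon
    obtain ⟨N', hN'⟩ := hcon
    obtain ⟨j, hj, hne⟩ := hW N' (J + 1) 1 one_pos (by push_cast; linarith)
    apply hne
    rcases two_cases (W (N' + j)) with h1 | h1
    · rcases two_cases (W (N' + j + 1)) with h2 | h2
      · rw [h1, h2]
      · exact absurd h2 (hN' _ (by omega))
    · exact absurd h1 (hN' _ (by omega))

/-! ### degenerate cases -/

theorem TP_of_none {k : ℕ} {α : ℚ} (hα : 0 < α) (h : ∀ W : ℕ → Fin k, ¬ PF α W) : TP k α := by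
  intro u v hu _
  obtain ⟨W, hW, -⟩ := exists_infinite hα hu
  exact absurd hW (h W)

theorem no_two_two (W : ℕ → Fin 2) : ¬ PF 2 W := by
  intro hW
  have h1 : ∀ i, W i ≠ W (i + 1) := by
    intro i h
    obtain ⟨j, hj, hne⟩ := hW i 2 1 one_pos (by norm_num)
    obtain rfl : j = 0 := by omega
    exact hne h
  obtain ⟨j, hj, hne⟩ := hW 0 4 2 (by norm_num) (by norm_num)
  have a0 := h1 0
  have a1 := h1 1
  have a2 := h1 2
  have : ∀ a b c d : Fin 2, a ≠ b → b ≠ c → c ≠ d → a = c ∧ b = d := by decide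
  obtain ⟨e1, e2⟩ := this _ _ _ _ a0 a1 a2
  have : j = 0 ∨ j = 1 := by omega
  rcases this with rfl | rfl
  · exact hne e1
  · exact hne e2

theorem TP_two_two : TP 2 2 := TP_of_none (by norm_num) no_two_two

theorem TP_small {k : ℕ} (hk : k ≤ 1) {α : ℚ} (hα : 2 ≤ α) : TP k α := by
  refine TP_of_none (by linarith) ?_
  intro W hW
  obtain ⟨j, hj, hne⟩ := hW 0 ⌈α⌉₊ 1 one_pos (by push_cast; rw [mul_one]; exact Nat.le_ceil α)
  apply hne
  apply Fin.ext
  have h1 := (W (0 + j)).isLt
  have h2 := (W (0 + j + 1)).isLt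
  omega

theorem TP_all {k : ℕ} {α : ℚ} (hα : 2 ≤ α) (hk : k ≠ 2 ∨ α = 2 ∨ 3 < α) : TP k α := by
  rcases Nat.lt_or_ge k 2 with h | h
  · exact TP_small (by omega) hα
  rcases Nat.lt_or_ge k 3 with h3 | h3
  · obtain rfl : k = 2 := by omega
    rcases hk with h | rfl | h
    · exact absurd rfl h
    · exact TP_two_two
    · exact TP_two h
  rcases Nat.lt_or_ge k 4 with h4 | h4
  · obtain rfl : k = 3 := by omega
    rcases hα.eq_or_lt with rfl | h
    · exact TP_three_two
    · exact TP_three h
  · exact TP_four h4 hα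

end Pool.Agent.Helper131.Fam
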