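import Mathlib
import Pool.Agent.Helper131.FreeDef
import Pool.Agent.Helper131.Trans
import Pool.Agent.Helper131.Tern
import Pool.Agent.Helper131.Fam
import Pool.Agent.Helper131.Comp

/-! Extendability of power-free words is decidable for exponents at least two (except for two
letters and exponents in `(2, 3]`). -/

set_option autoImplicit false

namespace Pool.Agent.Helper131.ExtC

open Pool.Agent.Helper131 (Free)
open Pool.Agent.Helper131.Trans
open Pool.Agent.Helper131.Comp
open Pool.Agent.Helper131.Tern (tm)

variable {k : ℕ}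

/-- the beginning of length `n` of `H` -/
def pre (H : ℕ → Fin k) (n : ℕ) : List (Fin k) := (List.range n).map H

theorem pre_length (H : ℕ → Fin k) (n : ℕ) : (pre H n).length = n := by simp [pre]

theorem pre_get {H : ℕ → Fin k} {n i : ℕ} (hi : i < n) : (pre H n)[i]? = some (H i) := by
  rw [pre, List.getElem?_map, List.getElem?_range hi]
  rfl

/-- `P` followed by `H` -/
def glue (P : List (Fin k)) (H : ℕ → Fin k) (i : ℕ) : Fin k :=
  if h : i < P.length then P[i] else H (i - P.length)

theorem glue_right (P : List (Fin k)) (H : ℕ → Fin k) (i : ℕ) : glue P H (P.length + i) = H i := by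
  unfold glue
  rw [dif_neg (by omega)]
  congr 1
  omega

theorem glue_get {P : List (Fin k)} {H : ℕ → Fin k} {n i : ℕ} (hi : i < P.length + n) :
    (P ++ pre H n)[i]? = some (glue P H i) := by
  rcases Nat.lt_or_ge i P.length with h | h
  · rw [List.getElem?_append_left h, List.getElem?_eq_getElem h]
    unfold glue
    rw [dif_pos h]
  · rw [List.getElem?_append_right h, pre_get (by omega)]
    unfold glue
    rw [dif_neg (by omega)]

/-- a free infinite word that starts with `u` makes `u` extendable -/
theorem Ext_of_PF {α : ℚ} (hα : 0 < α) {V : ℕ → Fin k} (hV : PF α V) {u : List (Fin k)}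
    (hu : ∀ i < u.length, u[i]? = some (V i)) : Ext α u := by
  let f : ℕ → List (Fin k) := fun n => (List.range n).map fun i => V (u.length + i)
  have hf : ∀ n, (f n).length = n := fun n => by simp [f]
  have hinj : Function.Injective f := by
    intro a b h
    have := congrArg List.length h
    rwa [hf, hf] at this
  refine (Set.infinite_range_of_injective hinj).mono ?_
  rintro _ ⟨n, rfl⟩
  show Free α (u ++ f n)
  rw [Free_iff hα]
  intro i e p hp he hi
  rw [List.length_append, hf] at hi
  have hget : ∀ t < u.length + n, (u ++ f n)[t]? = some (V t) := by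
    intro t ht
    rcases Nat.lt_or_ge t u.length with h | h
    · rw [List.getElem?_append_left h, hu t h]
    · rw [List.getElem?_append_right h]
      show ((List.range n).map fun i => V (u.length + i))[t - u.length]? = _
      rw [List.getElem?_map, List.getElem?_range (by omega)]
      simp only [Option.map_some]
      congr 2
      omega
  obtain ⟨j, hj, hne⟩ := hV i e p hp he
  refine ⟨j, hj, ?_⟩
  rw [hget _ (by omega), hget _ (by omega)]
  exact fun h => hne (Option.some.inj h)

/-- what a hub has to satisfy so that extendability can be certified by finite words -/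
structure Good (α : ℚ) (H : ℕ → Fin k) : Prop where
  pos : 0 < α
  reach : ∀ W, PF α W → ∀ N, GoalH α H W N
  fin : ∃ C, ∀ (P : List (Fin k)) (n : ℕ), C + P.length ≤ n → Free α (P ++ pre H n) →
    PF α (glue P H)

theorem Ext_iff {α : ℚ} {H : ℕ → Fin k} (hG : Good α H) : ∃ C, ∀ u : List (Fin k), Ext α u ↔
    ∃ c : List (Fin k) × ℕ, C + c.1.length ≤ c.2 ∧ u.length ≤ c.2 ∧ Free α (c.1 ++ pre H c.2) ∧
      ∀ i ∈ List.range u.length, u[i]? = (c.1 ++ pre H c.2)[i]? := by
  obtain ⟨C, hC⟩ := hG.fin
  refine ⟨C, fun u => ?_⟩
  constructor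
  · intro hu
    obtain ⟨W, hW, hWu⟩ := exists_infinite hG.pos hu
    obtain ⟨V, r, hV, hVH, hVW⟩ := hG.reach W hW u.length
    set P : List (Fin k) := (List.range r).map V with hP
    have hPl : P.length = r := by simp [hP]
    have hget : ∀ n, ∀ i < r + n, (P ++ pre H n)[i]? = some (V i) := by
      intro n i hi
      rcases Nat.lt_or_ge i r with h | h
      · rw [List.getElem?_append_left (by omega), hP, List.getElem?_map, List.getElem?_range h]
        rfl
      · rw [List.getElem?_append_right (by omega), pre_get (by omega), hPl]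
        have := hVH (i - r)
        rw [show r + (i - r) = i from by omega] at this
        rw [this]
    refine ⟨(P, C + r + u.length), by simp only [hPl]; omega, by simp only; omega, ?_, ?_⟩
    · simp only
      rw [Free_iff hG.pos]
      intro i e p hp he hi
      rw [List.length_append, pre_length, hPl] at hi
      obtain ⟨j, hj, hne⟩ := hV i e p hp he
      refine ⟨j, hj, ?_⟩
      rw [hget _ _ (by omega), hget _ _ (by omega)]
      exact fun h => hne (Option.some.inj h)
    · intro i hi
      rw [List.mem_range] at hi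
      simp only
      rw [hget _ _ (by omega), hVW i hi, hWu i hi]
  · rintro ⟨⟨P, n⟩, h1, h2, h3, h4⟩
    simp only at h1 h2 h3 h4
    refine Ext_of_PF hG.pos (hC P n h1 h3) ?_
    intro i hi
    rw [h4 i (List.mem_range.mpr hi), glue_get (by omega)]

theorem pr_pre {H : ℕ → Fin k} (hH : Primrec H) : Primrec (pre H) :=
  Primrec.list_map Primrec.list_range (hH.comp Primrec.snd)

theorem re_Ext {α : ℚ} (hα : 1 ≤ α) {H : ℕ → Fin k} (hH : Primrec H) (hG : Good α H) :
    REPred fun u : List (Fin k) => Ext α u := by
  classical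
  obtain ⟨C, hC⟩ := Ext_iff hG
  refine REPred.of_eq ?_ fun u => (hC u).symm
  refine re_exists (P := fun (u : List (Fin k)) (c : List (Fin k) × ℕ) =>
    C + c.1.length ≤ c.2 ∧ u.length ≤ c.2 ∧ Free α (c.1 ++ pre H c.2) ∧
      ∀ i ∈ List.range u.length, u[i]? = (c.1 ++ pre H c.2)[i]?) ?_
  have cu : Primrec fun q : List (Fin k) × (List (Fin k) × ℕ) => q.1 := Primrec.fst
  have cP : Primrec fun q : List (Fin k) × (List (Fin k) × ℕ) => q.2.1 :=
    Primrec.fst.comp Primrec.snd
  have cn : Primrec fun q : List (Fin k) × (List (Fin k) × ℕ) => q.2.2 :=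
    Primrec.snd.comp Primrec.snd
  have cw : Primrec fun q : List (Fin k) × (List (Fin k) × ℕ) => q.2.1 ++ pre H q.2.2 :=
    Primrec.list_append.comp cP ((pr_pre hH).comp cn)
  refine PrimrecPred.and ?_ (PrimrecPred.and ?_ (PrimrecPred.and ?_ ?_))
  · exact Primrec.nat_le.comp (Primrec.nat_add.comp (Primrec.const C)
      (Primrec.list_length.comp cP)) cn
  · exact Primrec.nat_le.comp (Primrec.list_length.comp cu) cn
  · exact (pp_free (k := k) hα).comp cw
  · refine pp_forall (Primrec.list_range.comp (Primrec.list_length.comp cu)) ?_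
    exact Primrec.eq.comp (Primrec.list_getElem?.comp (cu.comp Primrec.fst) Primrec.snd)
      (Primrec.list_getElem?.comp (cw.comp Primrec.fst) Primrec.snd)

theorem re_not_Ext {α : ℚ} (hα : 1 ≤ α) : REPred fun u : List (Fin k) => ¬ Ext α u := by
  classical
  have h : ∀ u : List (Fin k), (∃ n, ∀ x ∈ words k n, ¬ Free α (u ++ x)) ↔ ¬ Ext α u := by
    intro u
    constructor
    · rintro ⟨n, hn⟩ hu
      apply hu
      refine (Set.Finite.subset (s := {x : List (Fin k) | x.length < n}) ?_ ?_)
      · exact List.finite_length_lt (Fin k) n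
      · intro x hx
        by_contra hlt
        have hlt : n ≤ x.length := Nat.le_of_not_lt hlt
        refine hn (x.take n) ((mem_words _ _).mpr (by rw [List.length_take]; omega)) ?_
        refine Free_left (v := x.drop n) ?_
        rw [List.append_assoc, List.take_append_drop]
        exact hx
    · intro hu
      obtain ⟨n, hn⟩ := len_bound (Set.not_infinite.mp hu)
      refine ⟨n, fun x hx hf => ?_⟩
      have := hn x hf
      rw [(mem_words _ _).mp hx] at this
      omega
  refine REPred.of_eq ?_ h
  refine re_exists (P := fun (u : List (Fin k)) (n : ℕ) => ∀ x ∈ words k n, ¬ Free α (u ++ x)) ?_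
  refine pp_forall (pr_words.comp Primrec.snd) (PrimrecPred.not ?_)
  exact (pp_free (k := k) hα).comp (Primrec.list_append.comp
    (Primrec.fst.comp Primrec.fst) Primrec.snd)

theorem computable_Ext {α : ℚ} (hα : 1 ≤ α) {H : ℕ → Fin k} (hH : Primrec H) (hG : Good α H) :
    ComputablePred fun u : List (Fin k) => Ext α u := by
  rw [ComputablePred.computable_iff_re_compl_re']
  exact ⟨re_Ext hα hH hG, re_not_Ext hα⟩

theorem computable_Ext_none {α : ℚ} (hα : 0 < α) (h : ∀ W : ℕ → Fin k, ¬ PF α W) :
    ComputablePred fun u : List (Fin k) => Ext α u := by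
  have h1 : ∀ u : List (Fin k), False ↔ Ext α u := by
    intro u
    constructor
    · exact False.elim
    · intro hu
      obtain ⟨W, hW, -⟩ := exists_infinite hα hu
      exact h W hW
  refine ComputablePred.of_eq ?_ h1
  exact ⟨fun _ => instDecidableFalse, by simpa using Computable.const false⟩

theorem LExt_iff {α : ℚ} (u : List (Fin k)) :
    {x : List (Fin k) | Free α (x ++ u)}.Infinite ↔ Ext α u.reverse := by
  unfold Trans.Ext
  have key : ∀ x : List (Fin k), Free α (x ++ u) ↔ Free α (u.reverse ++ x.reverse) := by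
    intro x
    rw [← List.reverse_append]
    exact ⟨fun h => Free_reverse h, fun h => by have := Free_reverse h; rwa [List.reverse_reverse] at this⟩
  constructor
  · intro h
    have h1 := h.image (f := List.reverse) (Function.Injective.injOn List.reverse_injective)
    refine h1.mono ?_
    rintro _ ⟨x, hx, rfl⟩
    exact (key x).mp hx
  · intro h
    have h1 := h.image (f := List.reverse) (Function.Injective.injOn List.reverse_injective)
    refine h1.mono ?_
    rintro _ ⟨x, hx, rfl⟩
    refine (key _).mpr ?_
    rw [List.reverse_reverse]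
    exact hx

theorem computable_LExt {α : ℚ} (h : ComputablePred fun u : List (Fin k) => Ext α u) :
    ComputablePred fun u : List (Fin k) => {x : List (Fin k) | Free α (x ++ u)}.Infinite := by
  obtain ⟨hd, hc⟩ := h
  refine ComputablePred.of_eq (p := fun u : List (Fin k) => Ext α u.reverse) ?_
    fun u => (LExt_iff u).symm
  exact ⟨fun u => hd u.reverse, hc.comp Primrec.list_reverse.to_comp⟩

/-! ### general hubs -/

theorem fin_of_hubby {α : ℚ} {H : ℕ → Fin k} {l : ℕ} (hH : Hubby α H l) :
    ∃ C, ∀ (P : List (Fin k)) (n : ℕ), C + P.length ≤ n → Free α (P ++ pre H n) →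
      PF α (glue P H) := by
  refine ⟨l + 1, fun P n hn hF => ?_⟩
  have hα : 0 < α := lt_of_lt_of_le (by norm_num) hH.two
  have hl := hH.pos
  intro i e p hp he
  by_contra hcon
  push Not at hcon
  rcases Nat.lt_or_ge (P.length + n) (i + e) with h1 | h1
  swap
  · obtain ⟨j, hj, hne⟩ := (Free_iff hα _).mp hF i e p hp he (by
      rw [List.length_append, pre_length]; omega)
    apply hne
    rw [glue_get (by omega), glue_get (by omega), hcon j hj]
  rcases Nat.lt_or_ge P.length i with h2 | h2
  · obtain ⟨j, hj, hne⟩ := hH.h3 (i - P.length) e p (by omega) hp he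
    apply hne
    have := hcon j hj
    rwa [show i + j = P.length + (i - P.length + j) from by omega, glue_right,
      show P.length + (i - P.length + j) + p = P.length + (i - P.length + j + p) from by omega,
      glue_right] at this
  · obtain ⟨hip, -⟩ := core hH (W := glue P H) (V := glue P H) (s := P.length) (m := n) (by omega)
      (fun _ _ => rfl) (glue_right P H) hp he h2 h1 hcon
    obtain ⟨t, ht, hne⟩ := hH.h1 p hp
    apply hne
    have := hcon (P.length + t - i) (by omega)
    rwa [show i + (P.length + t - i) = P.length + t from by omega, glue_right,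
      show P.length + t + p = P.length + (p + t) from by omega, glue_right] at this

/-! ### the Thue-Morse word is primitive recursive -/

theorem tm_half (n : ℕ) : tm n = xor (tm (n / 2)) (decide (n % 2 = 1)) := by
  rcases Nat.even_or_odd' n with ⟨m, rfl | rfl⟩
  · rw [Tern.tm_even, show 2 * m / 2 = m from by omega, show 2 * m % 2 = 0 from by omega]
    simp
  · rw [Tern.tm_odd, show (2 * m + 1) / 2 = m from by omega,
      show (2 * m + 1) % 2 = 1 from by omega]
    simp

theorem pr_tm : Primrec tm := by
  have h : Primrec₂ fun (_ : Unit) (n : ℕ) => tm n := by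
    refine Primrec.nat_strong_rec (fun (_ : Unit) (n : ℕ) => tm n)
      (g := fun _ l => if l.length = 0 then some false else
        (l[l.length / 2]?).map fun b => xor b (decide (l.length % 2 = 1))) ?_ ?_
    · have hl : Primrec fun q : Unit × List Bool => q.2.length :=
        Primrec.list_length.comp Primrec.snd
      refine Primrec.ite (Primrec.eq.comp hl (Primrec.const 0)) (Primrec.const _) ?_
      refine Primrec.option_map (Primrec.list_getElem?.comp Primrec.snd
        (Primrec.nat_div.comp hl (Primrec.const 2))) ?_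
      have hxor : Primrec fun q : Bool × Bool => xor q.1 q.2 := Primrec.dom_finite _
      refine hxor.comp (Primrec.pair Primrec.snd ?_)
      have : PrimrecPred fun q : (Unit × List Bool) × Bool => q.1.2.length % 2 = 1 :=
        Primrec.eq.comp (Primrec.nat_mod.comp (hl.comp Primrec.fst) (Primrec.const 2))
          (Primrec.const 1)
      exact this.decide
    · intro _ n
      rcases Nat.eq_zero_or_pos n with h0 | h0
      · subst h0; rfl
      · have hlen : ((List.range n).map fun n => tm n).length = n := by simp
        simp only [hlen]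
        rw [if_neg (by omega), List.getElem?_map, List.getElem?_range (by omega)]
        simp only [Option.map_some]
        rw [← tm_half]
  exact h.comp (Primrec.const ()) Primrec.id

theorem pr_T : Primrec Tern.T := by
  have h : Primrec fun q : Bool × Bool => Tern.df q.1 q.2 := Primrec.dom_finite _
  exact h.comp (Primrec.pair (pr_tm.comp (Primrec.nat_add.comp Primrec.id (Primrec.const 6)))
    (pr_tm.comp (Primrec.nat_add.comp Primrec.id (Primrec.const 7))))

theorem pr_hubL {x : Fin k} {T : ℕ → Fin k} (hT : Primrec T) : Primrec (hubL x T) := by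
  have h : Primrec fun n : ℕ => (Nat.casesOn n x fun m => T m : Fin k) :=
    Primrec.nat_casesOn Primrec.id (Primrec.const x) (hT.comp Primrec.snd)
  refine h.of_eq fun n => ?_
  cases n <;> rfl

theorem pr_hub2 (J : ℕ) : Primrec (Fam.hub2 J) := by
  have hb : Primrec fun b : Bool => if b then (0 : Fin 2) else 1 := Primrec.dom_finite _
  have h : Primrec fun i : ℕ => if i = 0 then (1 : Fin 2) else if i ≤ J then 0 else
      if tm (i - (J + 1)) then 0 else 1 := by
    refine Primrec.ite (Primrec.eq.comp Primrec.id (Primrec.const 0)) (Primrec.const 1) ?_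
    refine Primrec.ite (Primrec.nat_le.comp Primrec.id (Primrec.const J)) (Primrec.const 0) ?_
    exact hb.comp (pr_tm.comp (Primrec.nat_sub.comp Primrec.id (Primrec.const (J + 1))))
  exact h

/-! ### the instances -/

theorem good_four {α : ℚ} (hk : 4 ≤ k) (hα : 2 ≤ α) :
    ∃ H : ℕ → Fin k, Primrec H ∧ Good α H := by
  have hT : PF α (fun i => (Fin.castLE (by omega : 3 ≤ k) (Tern.T i))) :=
    PF_map (Fam.PF_T hα) (Fin.castLE (by omega)) (Fin.castLE_injective _)
  have hx : ∀ i, (Fin.castLE (by omega : 3 ≤ k) (Tern.T i)) ≠ (⟨3, by omega⟩ : Fin k) := by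
    intro i h
    have h1 := congrArg Fin.val h
    have h2 := (Tern.T i).isLt
    simp only [Fin.val_castLE] at h1
    omega
  refine ⟨hubL (⟨3, by omega⟩ : Fin k) (fun i => (Fin.castLE (by omega : 3 ≤ k) (Tern.T i))),
    pr_hubL ((Primrec.dom_finite _).comp pr_T), by linarith, ?_, fin_of_hubby (hubL_hubby hα hT hx)⟩
  refine reachL (z := (⟨0, by omega⟩ : Fin k)) hα hT hx ?_
  intro N
  obtain ⟨m, hm, hm2⟩ := Tern.tm_false_unbounded N
  refine ⟨32 * m + 2, by omega, ?_⟩
  rw [Tern.T_block hm2 (by omega), Tern.T2]
  rfl

theorem good_three {α : ℚ} (hα : 2 < α) : ∃ H : ℕ → Fin 3, Primrec H ∧ Good α H := by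
  have hT : PF α (fun i => if tm i then (1 : Fin 3) else 0) := by
    intro i e p hp he
    have h2 := Fam.gt_two hα hp he
    obtain ⟨j, hj, hne⟩ := Fam.tm_ne i hp
    refine ⟨j, by omega, ?_⟩
    rw [show i + j + p = i + p + j from by omega]
    intro h
    have h' : (if tm (i + j) then (1 : Fin 3) else 0) = if tm (i + p + j) then 1 else 0 := h
    apply hne
    revert h'
    cases tm (i + j) <;> cases tm (i + p + j) <;> simp
  have hx : ∀ i, (if tm i then (1 : Fin 3) else 0) ≠ 2 := by
    intro i h
    revert h
    cases tm i <;> decide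
  have hb : Primrec fun b : Bool => if b then (1 : Fin 3) else 0 := Primrec.dom_finite _
  refine ⟨hubL (2 : Fin 3) (fun i => if tm i then (1 : Fin 3) else 0),
    pr_hubL (hb.comp pr_tm), by linarith, ?_, fin_of_hubby (hubL_hubby hα.le hT hx)⟩
  refine reachL (z := (0 : Fin 3)) hα.le hT hx ?_
  intro N
  obtain ⟨m, hm, hm2⟩ := Tern.tm_false_unbounded N
  exact ⟨m, hm, by simp [hm2]⟩

theorem good_two {α : ℚ} (hα : 3 < α) : ∃ H : ℕ → Fin 2, Primrec H ∧ Good α H := by
  obtain ⟨J, hJ1, hJ2⟩ : ∃ J : ℕ, (J : ℚ) < α ∧ α ≤ J + 1 := by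
    refine ⟨⌈α⌉₊ - 1, ?_, ?_⟩
    · have h1 : ⌈α⌉₊ - 1 < ⌈α⌉₊ := by
        have : 0 < ⌈α⌉₊ := Nat.ceil_pos.mpr (by linarith)
        omega
      exact Nat.lt_ceil.mp h1
    · have h1 : α ≤ ⌈α⌉₊ := Nat.le_ceil α
      have h2 : 0 < ⌈α⌉₊ := Nat.ceil_pos.mpr (by linarith)
      have h3 : ((⌈α⌉₊ - 1 : ℕ) : ℚ) + 1 = ⌈α⌉₊ := by
        have : (⌈α⌉₊ - 1) + 1 = ⌈α⌉₊ := by omega
        exact_mod_cast this
      rw [h3]; exact h1
  have hJ3 : 3 ≤ J := by
    have h1 : (3 : ℚ) < J + 1 := lt_of_lt_of_le hα hJ2
    have h2 : 3 < J + 1 := by exact_mod_cast h1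
    omega
  have hH := Fam.hub2_hubby hJ3 hJ1
  refine ⟨Fam.hub2 J, pr_hub2 J, by linarith, ?_, fin_of_hubby hH⟩
  intro W hW N
  refine switch hH hW ?_ N
  rw [Fam.hub2_zero]
  by_contra hcon
  push Not at hcon
  obtain ⟨N', hN'⟩ := hcon
  obtain ⟨j, hj, hne⟩ := hW N' (J + 1) 1 one_pos (by push_cast; linarith)
  apply hne
  rcases Fam.two_cases (W (N' + j)) with h1 | h1
  · rcases Fam.two_cases (W (N' + j + 1)) with h2 | h2
    · rw [h1, h2]
    · exact absurd h2 (hN' _ (by omega))
  · exact absurd h1 (hN' _ (by omega))

/-- the ternary hub with its marker -/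
def hub3 : ℕ → Fin 3
  | 0 => 0
  | 1 => 1
  | 2 => 0
  | i + 3 => Tern.T i

theorem pr_hub3 : Primrec hub3 := by
  have h : Primrec fun i : ℕ => if i = 0 then (0 : Fin 3) else if i = 1 then 1 else
      if i = 2 then 0 else Tern.T (i - 3) := by
    refine Primrec.ite (Primrec.eq.comp Primrec.id (Primrec.const 0)) (Primrec.const _) ?_
    refine Primrec.ite (Primrec.eq.comp Primrec.id (Primrec.const 1)) (Primrec.const _) ?_
    refine Primrec.ite (Primrec.eq.comp Primrec.id (Primrec.const 2)) (Primrec.const _) ?_
    exact pr_T.comp (Primrec.nat_sub.comp Primrec.id (Primrec.const 3))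
  refine h.of_eq fun i => ?_
  rcases i with _ | _ | _ | i
  · rfl
  · rfl
  · rfl
  · rw [if_neg (by omega), if_neg (by omega), if_neg (by omega)]
    show Tern.T (i + 3 - 3) = Tern.T i
    rw [show i + 3 - 3 = i from by omega]

theorem PF_of_SF {α : ℚ} (hα : 2 ≤ α) {W : ℕ → Fin 3} (h : Tern.SF W) : PF α W := by
  intro i e p hp he
  have := two_le hα he
  obtain ⟨j, hj, hne⟩ := h i p hp
  exact ⟨j, by omega, by rwa [show i + j + p = i + p + j from by omega]⟩

theorem good_three_two : ∃ H : ℕ → Fin 3, Primrec H ∧ Good 2 H := by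
  refine ⟨hub3, pr_hub3, by norm_num, ?_, ?_⟩
  · intro W hW N
    obtain ⟨V, r, hV, hub, hVW⟩ := Tern.goal_all (Fam.SF_of_PF hW) N
    refine ⟨V, r, PF_of_SF le_rfl hV, ?_, hVW⟩
    intro i
    rcases i with _ | _ | _ | i
    · exact hub.m0
    · exact hub.m1
    · exact hub.m2
    · have := hub.tail i
      rwa [show r + 3 + i = r + (i + 3) from by omega] at this
  · refine ⟨12, fun P n hn hF => ?_⟩
    apply PF_of_SF le_rfl
    have hub : Tern.Hub (glue P hub3) P.length := by
      refine ⟨?_, ?_, ?_, ?_⟩
      · have := glue_right P hub3 0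
        rwa [add_zero] at this
      · exact glue_right P hub3 1
      · exact glue_right P hub3 2
      · intro i
        rw [show P.length + 3 + i = P.length + (i + 3) from by omega, glue_right]
        rfl
    intro i p hp
    rcases Nat.lt_or_ge i P.length with hir | hir
    swap
    · exact Tern.hub_tail_sf hub hir hp
    rcases Nat.lt_or_ge (P.length + n) (i + 2 * p) with hlong | hshort
    swap
    · obtain ⟨j, hj, hne⟩ := (Free_iff (by norm_num) _).mp hF i (2 * p) p hp
        (by push_cast; exact le_rfl) (by rw [List.length_append, pre_length]; omega)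
      refine ⟨j, by omega, fun h => hne ?_⟩
      rw [glue_get (by omega), glue_get (by omega), h,
        show i + p + j = i + j + p from by omega]
    by_contra hcon
    push Not at hcon
    have eqv : ∀ j, i ≤ j → j < i + p → glue P hub3 j = glue P hub3 (j + p) := by
      intro j h1 h2
      have := hcon (j - i) (by omega)
      rwa [show i + (j - i) = j from by omega, show i + p + (j - i) = j + p from by omega] at this
    refine Tern.marker_free hub (i := P.length + p) (by omega) ⟨?_, ?_, ?_⟩
    · rw [← eqv P.length (by omega) (by omega), hub.m0]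
    · rw [show P.length + p + 1 = P.length + 1 + p from by omega,
        ← eqv (P.length + 1) (by omega) (by omega), hub.m1]
    · rw [show P.length + p + 2 = P.length + 2 + p from by omega,
        ← eqv (P.length + 2) (by omega) (by omega), hub.m2]

/-- extendability to the right and to the left is decidable -/
theorem computable_all {k : ℕ} {α : ℚ} (hα : 2 ≤ α) (hk : k ≠ 2 ∨ α = 2 ∨ 3 < α) :
    (ComputablePred fun u : List (Fin k) => Ext α u) ∧
    (ComputablePred fun u : List (Fin k) => {x : List (Fin k) | Free α (x ++ u)}.Infinite) := by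
  have key : ComputablePred fun u : List (Fin k) => Ext α u := by
    rcases Nat.lt_or_ge k 2 with h | h
    · refine computable_Ext_none (by linarith) ?_
      intro W hW
      obtain ⟨j, hj, hne⟩ := hW 0 ⌈α⌉₊ 1 one_pos (by push_cast; rw [mul_one]; exact Nat.le_ceil α)
      apply hne
      apply Fin.ext
      have h1 := (W (0 + j)).isLt
      have h2 := (W (0 + j + 1)).isLt
      omega
    rcases Nat.lt_or_ge k 3 with h3 | h3
    · obtain rfl : k = 2 := by omega
      rcases hk with h | rfl | h
      · exact absurd rfl h
      · exact computable_Ext_none (by norm_num) Fam.no_two_two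
      · obtain ⟨H, h1, h2⟩ := good_two h
        exact computable_Ext (by linarith) h1 h2
    rcases Nat.lt_or_ge k 4 with h4 | h4
    · obtain rfl : k = 3 := by omega
      rcases hα.eq_or_lt with rfl | h
      · obtain ⟨H, h1, h2⟩ := good_three_two
        exact computable_Ext (by norm_num) h1 h2
      · obtain ⟨H, h1, h2⟩ := good_three h
        exact computable_Ext (by linarith) h1 h2
    · obtain ⟨H, h1, h2⟩ := good_four h4 hα
      exact computable_Ext (by linarith) h1 h2
  exact ⟨key, computable_LExt key⟩

end Pool.Agent.Helper131.ExtC
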