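import Mathlib
import Pool.Agent.Helper131.FreeDef
import Pool.Agent.Helper131.Trans
import Pool.Agent.Helper131.Tern
import Pool.Agent.Helper131.Fam
import Pool.Agent.Helper131.Comp
import Pool.Agent.Helper131.ExtC

/-! Hubs whose beginning is only recognised after a window of `G` letters. -/

set_option autoImplicit false

namespace Pool.Agent.Helper131.HubG

open Pool.Agent.Helper131 (Free)
open Pool.Agent.Helper131.Trans

variable {A : Type}

structure Hb (α : ℚ) (H : ℕ → A) (G : ℕ) : Prop where
  two : 2 < α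
  pos : 1 ≤ G
  free : PF α H
  mark : ∀ q, 0 < q → ∃ k < G, H k ≠ H (q + k)
  ret : ∀ p q e : ℕ, 0 < p → G < q → (∀ k, k + p < q → H k = H (k + p)) → α * p ≤ e → q + p ≤ e

theorem coreG {α : ℚ} {H : ℕ → A} {G : ℕ} (hH : Hb α H G) {W V : ℕ → A} {s m : ℕ}
    (hm : G ≤ m) (hV : ∀ i < s + m, V i = W i) (hVH : ∀ k, V (s + k) = H k) {i e p : ℕ}
    (hp : 0 < p) (he : α * p ≤ e) (his : i ≤ s) (hie : s + m < i + e)
    (hper : ∀ j, j + p < e → V (i + j) = V (i + j + p)) :
    i + p ≤ s ∧ ∀ k, k < p + m → s + k < i + e → W (s - p + k) = H k := by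
  have hper' : ∀ k, k + p < i + e - s → H k = H (k + p) := by
    intro k hk
    have := hper (s + k - i) (by omega)
    rw [show i + (s + k - i) = s + k from by omega, hVH, add_assoc, hVH] at this
    exact this
  have hq := hH.ret p (i + e - s) e hp (by omega) hper' he
  have hip : i + p ≤ s := by omega
  refine ⟨hip, fun k hk1 hk2 => ?_⟩
  rw [← hV _ (by omega)]
  have := hper (s - p + k - i) (by omega)
  rw [show i + (s - p + k - i) = s - p + k from by omega] at this
  rw [this, show s - p + k + p = s + k from by omega, hVH]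

theorem switch0 {α : ℚ} {H : ℕ → A} {G : ℕ} (hH : Hb α H G) {W : ℕ → A} (hW : PF α W)
    (hNT : ∀ s, ∃ k, W (s + k) ≠ H k) (N N1 : ℕ) :
    ∃ B0, ∀ s ≥ B0, ∀ m ≥ G, mk W H s m → (∀ s', N1 ≤ s' → s' < s → ¬ mk W H s' (m + 1)) →
      N ≤ s + m → GoalH α H W N := by
  choose κ hκ using hNT
  obtain ⟨B, hB⟩ := bound_exists (fun s => κ s) N1
  refine ⟨B + 2 * N1 + 1, ?_⟩
  intro s hs m hm hmk hno hN
  set V : ℕ → A := fun i => if i < s then W i else H (i - s) with hVdef
  have hVH : ∀ k, V (s + k) = H k := by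
    intro k
    simp only [hVdef]
    rw [if_neg (by omega)]
    congr 1
    omega
  have hV : ∀ i < s + m, V i = W i := by
    intro i hi
    rcases Nat.lt_or_ge i s with h | h
    · simp only [hVdef]
      rw [if_pos h]
    · have h1 := hVH (i - s)
      have h2 := hmk (i - s) (by omega)
      rw [show s + (i - s) = i from by omega] at h1 h2
      rw [h1, h2]
  refine ⟨V, s, ?_, hVH, fun i hi => hV i (by omega)⟩
  intro i e p hp he
  by_contra hcon
  push Not at hcon
  rcases Nat.lt_or_ge (s + m) (i + e) with h1 | h1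
  swap
  · obtain ⟨j, hj, hne⟩ := hW i e p hp he
    apply hne
    have := hcon j hj
    rwa [hV _ (by omega), hV _ (by omega)] at this
  rcases Nat.lt_or_ge s i with h2 | h2
  · obtain ⟨j, hj, hne⟩ := hH.free (i - s) e p hp he
    apply hne
    have := hcon j hj
    rwa [show i + j = s + (i - s + j) from by omega, hVH,
      show s + (i - s + j) + p = s + (i - s + j + p) from by omega, hVH] at this
  obtain ⟨hip, hc⟩ := coreG hH hm hV hVH hp he h2 h1 hcon
  rcases Nat.lt_or_ge (s - p) N1 with h3 | h3
  · have h4 := hB (s - p) h3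
    have h2e := two_le hH.two.le he
    exact hκ (s - p) (hc (κ (s - p)) (by omega) (by omega))
  · refine hno (s - p) h3 (by omega) ?_
    intro k hk
    exact hc k (by omega) (by omega)

/-- if the window of the hub recurs then one can switch to the hub -/
theorem switch {α : ℚ} {H : ℕ → A} {G : ℕ} (hH : Hb α H G) {W : ℕ → A} (hW : PF α W)
    (hrec : ∀ N', ∃ s ≥ N', mk W H s G) (N : ℕ) : GoalH α H W N := by
  by_cases htail : ∃ s, ∀ k, W (s + k) = H k
  · obtain ⟨s, hs⟩ := htail
    exact ⟨W, s, hW, hs, fun i _ => rfl⟩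
  have hNT : ∀ s, ∃ k, W (s + k) ≠ H k := by
    intro s
    by_contra hcon
    push Not at hcon
    exact htail ⟨s, hcon⟩
  by_cases hall : ∀ m, ∀ N', ∃ r ≥ N', mk W H r m
  · obtain ⟨B0, hB0⟩ := switch0 hH hW hNT N 0
    choose κ hκ using hNT
    obtain ⟨C, hC⟩ := bound_exists κ B0
    set m := max (max G N) C with hm
    have hex : ∃ r, mk W H r m := by
      obtain ⟨r, -, hr⟩ := hall m 0
      exact ⟨r, hr⟩
    classical
    have hr := Nat.find_spec hex
    have hmin : ∀ s < Nat.find hex, ¬ mk W H s m := fun s hs => Nat.find_min hex hs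
    refine hB0 (Nat.find hex) ?_ m (by omega) hr ?_ (by omega)
    · by_contra hlt
      push Not at hlt
      have h1 := hC _ hlt
      exact hκ (Nat.find hex) (hr _ (by omega))
    · intro s _ hs hmk
      exact hmin s hs (fun k hk => hmk k (by omega))
  · push Not at hall
    classical
    have hm := Nat.find_spec hall
    have hmin : ∀ m < Nat.find hall, ∀ N', ∃ r ≥ N', mk W H r m := by
      intro m h
      have := Nat.find_min hall h
      push Not at this
      exact this
    set m := Nat.find hall with hmdef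
    have hm9 : G < m := by
      by_contra hle
      push Not at hle
      obtain ⟨N', hN'⟩ := hm
      obtain ⟨s, hs, hW0⟩ := hrec N'
      exact hN' s hs (fun k hk => hW0 k (by omega))
    obtain ⟨N1, hN1⟩ := hm
    obtain ⟨B0, hB0⟩ := switch0 hH hW hNT N N1
    obtain ⟨r, hr, hmk⟩ := hmin (m - 1) (by omega) (max B0 N)
    refine hB0 r (by omega) (m - 1) (by omega) hmk ?_ (by omega)
    intro s hs _
    rw [show m - 1 + 1 = m from by omega]
    exact hN1 s hs

/-- inserting a word that leads to the hub -/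
theorem lemD {α : ℚ} {H : ℕ → A} {G : ℕ} (hH : Hb α H G) (h73 : ∀ p e : ℕ, 0 < p → α * p ≤ e →
    7 * p < 3 * e) {W : ℕ → A} (hW : PF α W) (hNH : ∀ s, ∃ k, W (s + k) ≠ H k) (N1 : ℕ)
    (hg : ∀ s ≥ N1, ¬ mk W H s G) (x : ℕ → A) (M L U : ℕ) (hM : G ≤ M + 1) (hL : 1 ≤ L)
    (hU : U ≤ M) (hGL : G ≤ M + L)
    (c1 : ∀ i e p, 0 < p → 7 * p < 3 * e → i + e ≤ M + L → ∃ j, j + p < e ∧ x (i + j) ≠ x (i + j + p))
    (c2 : mk x H (M + L - G) G) (c3 : ∀ s < M + L - G, ¬ mk x H s G)
    (c4 : ∀ p E, M - U + 2 ≤ p → M < E → E ≤ M + L → 4 * p < 3 * (E - (M - U)) →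
      ∃ j, j + p < E ∧ x j ≠ x (j + p))
    (N0 : ℕ) (c5 : ∀ i ≥ N0, ¬ ∀ j ≤ U, W (i + j) = x (M - U + j))
    (hv : ∀ N', ∃ a ≥ N', ∀ j < M, W (a + j) = x j) (N : ℕ) : GoalH α H W N := by
  choose κ hκ using hNH
  obtain ⟨B, hB⟩ := bound_exists κ N1
  obtain ⟨a, ha, hav⟩ := hv (N + B + 2 * N1 + 2 * N0 + 2 * U + 2 * M + L + G + 1)
  set r := a + (M + L) - G with hr
  set V : ℕ → A := fun i => if i < a then W i else if i < a + (M + L) then x (i - a)
    else H (i - r) with hVdef
  have V2 : ∀ j < M + L, V (a + j) = x j := by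
    intro j hj
    simp only [hVdef]
    rw [if_neg (by omega), if_pos (by omega)]
    congr 1
    omega
  have V1 : ∀ i < a + M, V i = W i := by
    intro i hi
    rcases Nat.lt_or_ge i a with h | h
    · simp only [hVdef]
      rw [if_pos h]
    · have := V2 (i - a) (by omega)
      rw [show a + (i - a) = i from by omega] at this
      rw [this, ← hav (i - a) (by omega), show a + (i - a) = i from by omega]
  have VH : ∀ k, V (r + k) = H k := by
    intro k
    rcases Nat.lt_or_ge k G with h | h
    · rw [show r + k = a + (M + L - G + k) from by omega, V2 _ (by omega)]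
      exact c2 k h
    · simp only [hVdef]
      rw [if_neg (by omega), if_neg (by omega)]
      congr 1
      omega
  refine ⟨V, r, ?_, VH, fun i hi => V1 i (by omega)⟩
  intro i e p hp he
  by_contra hcon
  push Not at hcon
  have h73' := h73 p e hp he
  have eqv : ∀ j, i ≤ j → j + p < i + e → V j = V (j + p) := by
    intro j h1 h2
    have := hcon (j - i) (by omega)
    rwa [show i + (j - i) = j from by omega] at this
  rcases Nat.lt_or_ge (a + M) (i + e) with hA | hA
  swap
  · obtain ⟨k, hk, hne⟩ := hW i e p hp he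
    apply hne
    have := hcon k hk
    rwa [V1 _ (by omega), V1 _ (by omega)] at this
  rcases Nat.lt_or_ge (a + (M + L)) (i + e) with hBig | hBig
  swap
  · -- the power ends inside the inserted word
    rcases Nat.lt_or_ge i a with h | h
    swap
    · obtain ⟨k, hk, hne⟩ := c1 (i - a) e p hp h73' (by omega)
      apply hne
      have := hcon k hk
      rwa [show i + k = a + (i - a + k) from by omega, V2 _ (by omega),
        show a + (i - a + k) + p = a + (i - a + k + p) from by omega, V2 _ (by omega)] at this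
    · rcases Nat.lt_or_ge (a + M - U) (i + p) with h3 | h3
      · obtain ⟨j, hj, hne⟩ := c4 p (i + e - a) (by omega) (by omega) (by omega) (by omega)
        apply hne
        have := eqv (a + j) (by omega) (by omega)
        rwa [V2 _ (by omega), show a + j + p = a + (j + p) from by omega, V2 _ (by omega)] at this
      · refine c5 (a + M - U - p) (by omega) ?_
        intro j hj
        rw [← V1 _ (by omega), eqv _ (by omega) (by omega),
          show a + M - U - p + j + p = a + (M - U + j) from by omega, V2 _ (by omega)]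
  -- the power ends in the hub
  rcases Nat.lt_or_ge r i with h | h
  · obtain ⟨j, hj, hne⟩ := hH.free (i - r) e p hp he
    apply hne
    have := hcon j hj
    rwa [show i + j = r + (i - r + j) from by omega, VH,
      show r + (i - r + j) + p = r + (i - r + j + p) from by omega, VH] at this
  obtain ⟨hip, hc⟩ := coreG hH (W := V) (V := V) (s := r) (m := G) le_rfl (fun _ _ => rfl) VH hp he
    h (by omega) hcon
  have hc' : ∀ k, r + k < i + e → V (r - p + k) = H k := by
    intro k hk
    have := eqv (r - p + k) (by omega) (by omega)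
    rw [this, show r - p + k + p = r + k from by omega, VH]
  rcases Nat.lt_or_ge (r - p) N1 with h3 | h3
  · have h4 := hB (r - p) h3
    refine hκ (r - p) ?_
    rw [← V1 _ (by omega)]
    exact hc' _ (by omega)
  · rcases Nat.lt_or_ge (a + M) (r - p + G) with h5 | h5
    · refine c3 (r - p - a) (by omega) ?_
      intro k hk
      rw [← V2 _ (by omega), show a + (r - p - a + k) = r - p + k from by omega]
      exact hc' k (by omega)
    · refine hg (r - p) h3 ?_
      intro k hk
      rw [← V1 _ (by omega)]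
      exact hc' k (by omega)

/-- joining two words at the hub -/
theorem join {α : ℚ} {H : ℕ → A} {l : ℕ}
    (hov : ∀ p, 0 < p → ∃ j ≤ p, H (l + j) ≠ H (l + (j + p)))
    (h73 : ∀ p e : ℕ, 0 < p → α * p ≤ e → 7 * p < 3 * e) :
    ∀ (V1 V2 : ℕ → A) (r1 r2 : ℕ), PF α V1 → (∀ k, V1 (r1 + k) = H k) → PF α V2 →
      (∀ k, V2 (r2 + k) = H k) → ∀ n : ℕ, (∀ i < n, H (l + (n - 1 - i)) = H (l + i)) →
      7 * (r1 + r2 + 2 * l) + 7 < n → ∀ Y : ℕ → A, (∀ i < r1 + l + n, Y i = V1 i) →
      (∀ i, r1 + l + n ≤ i → i < r1 + l + n + (r2 + l) → Y i = V2 (r1 + l + n + (r2 + l) - 1 - i)) →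
      ∀ i e p : ℕ, 0 < p → α * p ≤ e → i + e ≤ r1 + l + n + (r2 + l) →
        ∃ j, j + p < e ∧ Y (i + j) ≠ Y (i + j + p) := by
  intro V1 V2 r1 r2 s1 hV1 s2 hV2 n hn hnB Y hY1 hY2 i e p hp he hi
  have hY3 : ∀ i, i < l + n → Y (r1 + i) = H i := by
    intro i hi1
    rw [hY1 _ (by omega), hV1]
  have hY2' : ∀ i, r1 + l ≤ i → i < r1 + l + n + (r2 + l) →
      Y i = V2 (r1 + l + n + (r2 + l) - 1 - i) := by
    intro i hi1 hi2
    rcases Nat.lt_or_ge i (r1 + l + n) with h | h
    · have e1 : i = r1 + (l + (i - r1 - l)) := by omega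
      have e2 : r1 + l + n + (r2 + l) - 1 - i = r2 + (l + (n - 1 - (i - r1 - l))) := by omega
      rw [e2, hV2, hn _ (by omega)]
      conv_lhs => rw [e1]
      rw [hY3 _ (by omega)]
    · exact hY2 i h hi2
  by_contra hcon
  push Not at hcon
  have eqv : ∀ j, i ≤ j → j + p < i + e → Y j = Y (j + p) := by
    intro j h1 h2
    have := hcon (j - i) (by omega)
    rwa [show i + (j - i) = j from by omega] at this
  rcases Nat.lt_or_ge (r1 + l + n) (i + e) with hA | hA
  swap
  · obtain ⟨k, hk, hne⟩ := s1 i e p hp he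
    apply hne
    have := hcon k hk
    rwa [hY1 _ (by omega), hY1 _ (by omega)] at this
  rcases Nat.lt_or_ge i (r1 + l) with hBi | hBi
  swap
  · obtain ⟨k, hk, hne⟩ := s2 (r1 + l + n + (r2 + l) - i - e) e p hp he
    apply hne
    have := hcon (e - 1 - k - p) (by omega)
    rw [hY2' _ (by omega) (by omega), hY2' _ (by omega) (by omega)] at this
    rw [show r1 + l + n + (r2 + l) - i - e + k =
      r1 + l + n + (r2 + l) - 1 - (i + (e - 1 - k - p) + p) from by omega, ← this]
    congr 1
    omega
  have h73' := h73 p e hp he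
  obtain ⟨j, hj, hne⟩ := hov p hp
  apply hne
  have := eqv (r1 + (l + j)) (by omega) (by omega)
  rwa [hY3 _ (by omega), show r1 + (l + j) + p = r1 + (l + (j + p)) from by omega,
    hY3 _ (by omega)] at this

variable {k : ℕ}

theorem TP_of_hub {α : ℚ} {H : ℕ → Fin k} {l : ℕ} (hα : 0 < α)
    (hov : ∀ p, 0 < p → ∃ j ≤ p, H (l + j) ≠ H (l + (j + p)))
    (h73 : ∀ p e : ℕ, 0 < p → α * p ≤ e → 7 * p < 3 * e)
    (hpal : ∀ B, ∃ n ≥ B, ∀ i < n, H (l + (n - 1 - i)) = H (l + i))
    (hreach : ∀ W, PF α W → ∀ N, GoalH α H W N) : TP k α := by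
  intro w y hw hy
  have hy' : Ext α y.reverse := by
    have h1 := hy.image (f := List.reverse) (Function.Injective.injOn List.reverse_injective)
    refine h1.mono ?_
    rintro _ ⟨x, hx, rfl⟩
    have := Free_reverse hx
    rw [List.reverse_append] at this
    exact this
  obtain ⟨W1, sW1, hW1⟩ := exists_infinite hα hw
  obtain ⟨W2, sW2, hW2⟩ := exists_infinite hα hy'
  obtain ⟨V1, r1, s1, h1, hV1⟩ := hreach W1 sW1 w.length
  obtain ⟨V2, r2, s2, h2, hV2⟩ := hreach W2 sW2 y.length
  obtain ⟨n, hnB, hn⟩ := hpal (7 * (r1 + r2 + 2 * l) + 8 + w.length + y.length)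
  set N := r1 + l + n + (r2 + l) with hN
  set Y : ℕ → Fin k := fun i => if i < r1 + l + n then V1 i else V2 (N - 1 - i) with hY
  have hY1 : ∀ i < r1 + l + n, Y i = V1 i := by
    intro i hi
    simp only [hY]
    rw [if_pos hi]
  have hY2 : ∀ i, r1 + l + n ≤ i → i < r1 + l + n + (r2 + l) →
      Y i = V2 (r1 + l + n + (r2 + l) - 1 - i) := by
    intro i hi1 _
    simp only [hY]
    rw [if_neg (by omega)]
  have hY2' : ∀ i, r1 + l ≤ i → i < N → Y i = V2 (N - 1 - i) := by
    intro i hi1 hi2
    rcases Nat.lt_or_ge i (r1 + l + n) with h | h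
    · have e1 : i = r1 + (l + (i - r1 - l)) := by omega
      have e2 : N - 1 - i = r2 + (l + (n - 1 - (i - r1 - l))) := by omega
      rw [e2, h2, hn _ (by omega), hY1 i h]
      conv_lhs => rw [e1]
      rw [h1]
    · exact hY2 i h hi2
  have hsf := join hov h73 V1 V2 r1 r2 s1 h1 s2 h2 n hn (by omega) Y hY1 hY2
  set z : List (Fin k) := (List.range (N - w.length - y.length)).map (fun j => Y (w.length + j))
    with hz
  have hzl : z.length = N - w.length - y.length := by rw [hz]; simp
  have hget : ∀ i < N, (w ++ z ++ y)[i]? = some (Y i) := by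
    intro i hi
    rcases Nat.lt_or_ge i w.length with ha | ha
    · rw [List.append_assoc, List.getElem?_append_left ha, hY1 i (by omega), hV1 i ha, hW1 i ha]
    · rcases Nat.lt_or_ge i (w.length + z.length) with hb | hb
      · rw [List.append_assoc, List.getElem?_append_right ha, List.getElem?_append_left (by omega),
          hz, List.getElem?_map, List.getElem?_range (by omega)]
        simp only [Option.map_some]
        congr 2
        omega
      · rw [List.getElem?_append_right (by rw [List.length_append]; omega), List.length_append,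
          hY2' i (by omega) hi, hV2 _ (by omega), ← hW2 _ (by rw [List.length_reverse]; omega),
          List.getElem?_reverse (by omega)]
        congr 1
        omega
  refine ⟨z, ?_⟩
  rw [Free_iff hα]
  intro i e p hp he hi
  have hlen : (w ++ z ++ y).length = N := by
    rw [List.length_append, List.length_append]; omega
  rw [hlen] at hi
  obtain ⟨j, hj, hne⟩ := hsf i e p hp he hi
  refine ⟨j, hj, ?_⟩
  rw [hget _ (by omega), hget _ (by omega)]
  exact fun h => hne (Option.some.inj h)

/-- a finite test for what is followed by the hub -/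
theorem fin_of_hb {α : ℚ} {H : ℕ → Fin k} {G : ℕ} (hH : Hb α H G) :
    ∃ C, ∀ (P : List (Fin k)) (n : ℕ), C + P.length ≤ n → Free α (P ++ ExtC.pre H n) →
      PF α (ExtC.glue P H) := by
  refine ⟨G + 1, fun P n hn hF => ?_⟩
  have hα : 0 < α := lt_trans (by norm_num) hH.two
  intro i e p hp he
  by_contra hcon
  push Not at hcon
  rcases Nat.lt_or_ge (P.length + n) (i + e) with h1 | h1
  swap
  · obtain ⟨j, hj, hne⟩ := (Free_iff hα _).mp hF i e p hp he (by
      rw [List.length_append, ExtC.pre_length]; omega)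
    apply hne
    rw [ExtC.glue_get (by omega), ExtC.glue_get (by omega), hcon j hj]
  rcases Nat.lt_or_ge P.length i with h2 | h2
  · obtain ⟨j, hj, hne⟩ := hH.free (i - P.length) e p hp he
    apply hne
    have := hcon j hj
    rwa [show i + j = P.length + (i - P.length + j) from by omega, ExtC.glue_right,
      show P.length + (i - P.length + j) + p = P.length + (i - P.length + j + p) from by omega,
      ExtC.glue_right] at this
  · obtain ⟨hip, -⟩ := coreG hH (W := ExtC.glue P H) (V := ExtC.glue P H) (s := P.length) (m := n)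
      (by omega) (fun _ _ => rfl) (ExtC.glue_right P H) hp he h2 h1 hcon
    obtain ⟨t, ht, hne⟩ := hH.mark p hp
    apply hne
    have := hcon (P.length + t - i) (by omega)
    rwa [show i + (P.length + t - i) = P.length + t from by omega, ExtC.glue_right,
      show P.length + t + p = P.length + (p + t) from by omega, ExtC.glue_right] at this

end Pool.Agent.Helper131.HubG
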