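import Mathlib
import Pool.Agent.Helper131.FreeDef
import Pool.Agent.Helper131.Trans
import Pool.Agent.Helper131.Tern
import Pool.Agent.Helper131.Fam
import Pool.Agent.Helper131.Comp
import Pool.Agent.Helper131.ExtC
import Pool.Agent.Helper131.HubG

/-! Binary words and exponents between `7/3` and `3`: a hub made from the Thue-Morse word, and a
finite certificate that every infinite power-free word can be switched to it. -/

set_option autoImplicit false

namespace Pool.Agent.Helper131.Bin

open Pool.Agent.Helper131 (Free)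
open Pool.Agent.Helper131.Trans
open Pool.Agent.Helper131.HubG
open Pool.Agent.Helper131.Tern (tm)

/-! ### the hub -/

/-- `0 0` followed by the Thue-Morse word from position `22` on -/
def hub (i : ℕ) : Fin 2 := if i < 2 then 0 else if tm (20 + i) then 1 else 0

theorem hub_vals : (List.range 30).map hub =
    [0,0,1,0,0,1,1,0,1,0,0,1,1,0,0,1,0,1,1,0,0,1,1,0,1,0,0,1,0,1] := by decide +kernel

theorem hub_ge {i : ℕ} (h : 2 ≤ i) : hub i = if tm (20 + i) then 1 else 0 := by
  unfold hub
  rw [if_neg (by omega)]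

theorem hub_ne {i j : ℕ} (hi : 2 ≤ i) (hj : 2 ≤ j) (h : tm (20 + i) ≠ tm (20 + j)) :
    hub i ≠ hub j := by
  rw [hub_ge hi, hub_ge hj]
  intro h'
  apply h
  revert h'
  cases tm (20 + i) <;> cases tm (20 + j) <;> simp

theorem hub_eq {i j : ℕ} (hi : 2 ≤ i) (hj : 2 ≤ j) (h : hub i = hub j) :
    tm (20 + i) = tm (20 + j) := by
  by_contra hne
  exact hub_ne hi hj hne h

theorem hub_ov {i : ℕ} (hi : 2 ≤ i) {p : ℕ} (hp : 0 < p) : ∃ j ≤ p, hub (i + j) ≠ hub (i + j + p) := by
  obtain ⟨j, hj, hne⟩ := Fam.tm_ne (20 + i) hp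
  refine ⟨j, hj, hub_ne (by omega) (by omega) ?_⟩
  rwa [show 20 + (i + j) = 20 + i + j from by omega,
    show 20 + (i + j + p) = 20 + i + p + j from by omega]

theorem hub_fin1 : ∀ i < 2, ∀ p < 6, 0 < p → ∃ j < 15, 3 * (j + p) ≤ 7 * p ∧
    hub (i + j) ≠ hub (i + j + p) := by decide +kernel

theorem hub_free {α : ℚ} (h73 : ∀ p e : ℕ, 0 < p → α * p ≤ e → 7 * p < 3 * e) : PF α hub := by
  intro i e p hp he
  have h := h73 p e hp he
  rcases Nat.lt_or_ge i 2 with hi | hi
  swap
  · obtain ⟨j, hj, hne⟩ := hub_ov hi hp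
    exact ⟨j, by omega, hne⟩
  rcases Nat.lt_or_ge p 6 with h6 | h6
  · obtain ⟨j, -, hj, hne⟩ := hub_fin1 i hi p h6 hp
    exact ⟨j, by omega, hne⟩
  · obtain ⟨j, hj, hne⟩ := hub_ov (le_refl 2) hp
    refine ⟨2 - i + j, by omega, ?_⟩
    rwa [show i + (2 - i + j) = 2 + j from by omega]

theorem hub_first : hub 0 = 0 ∧ hub 1 = 0 ∧ hub 2 = 1 ∧ hub 3 = 0 ∧ hub 4 = 0 ∧ hub 5 = 1 := by
  decide +kernel

theorem hub_mark (q : ℕ) (hq : 0 < q) : ∃ k < 5, hub k ≠ hub (q + k) := by
  by_contra hcon
  push Not at hcon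
  obtain ⟨a0, a1, a2, a3, a4, -⟩ := hub_first
  have h0 := hcon 0 (by omega)
  have h1 := hcon 1 (by omega)
  have h3 := hcon 3 (by omega)
  have h4 := hcon 4 (by omega)
  rcases Nat.lt_or_ge q 2 with h | h
  · obtain rfl : q = 1 := by omega
    rw [show 1 + 1 = 2 from rfl, a1, a2] at h1
    exact absurd h1 (by decide)
  · have e1 := hub_eq (i := q + 0) (j := q + 1) (by omega) (by omega) (by rw [← h0, ← h1, a0, a1])
    have e2 := hub_eq (i := q + 3) (j := q + 4) (by omega) (by omega) (by rw [← h3, ← h4, a3, a4])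
    have p1 := Tern.tm_pair_odd (j := 20 + (q + 0)) (by rw [e1]; congr 1)
    have p2 := Tern.tm_pair_odd (j := 20 + (q + 3)) (by rw [e2]; congr 1)
    omega

theorem hub_fin2 : ∀ p < 9, ∀ q < 13, (0 < p ∧ 6 < q ∧ q < p + 5 ∧ p < q ∧
    7 * p + 3 < 3 * (q + p)) → ∃ k < 13, k + p < q ∧ hub k ≠ hub (k + p) := by decide +kernel

theorem hub_hb {α : ℚ} (hα : 2 < α) (h73 : ∀ p e : ℕ, 0 < p → α * p ≤ e → 7 * p < 3 * e) :
    Hb α hub 6 where
  two := hα
  pos := by norm_num
  free := hub_free h73
  mark := fun q hq => by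
    obtain ⟨k, hk, hne⟩ := hub_mark q hq
    exact ⟨k, by omega, hne⟩
  ret := by
    intro p q e hp hq hper he
    have h := h73 p e hp he
    rcases Nat.lt_or_ge p q with h1 | h1
    swap
    · omega
    rcases Nat.lt_or_ge q (p + 5) with h2 | h2
    swap
    · obtain ⟨k, hk, hne⟩ := hub_mark p hp
      exact absurd (by rw [add_comm p k]; exact hper k (by omega)) hne
    rcases Nat.lt_or_ge p 9 with h3 | h3
    swap
    · omega
    by_contra hlt
    push Not at hlt
    obtain ⟨k, -, hk, hne⟩ := hub_fin2 p h3 q (by omega) ⟨hp, hq, h2, h1, by omega⟩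
    exact absurd (hper k hk) hne

/-! ### words, recurrence, and the finite certificate -/

def occ (W : ℕ → Fin 2) (w : List (Fin 2)) (i : ℕ) : Prop :=
  ∀ j < w.length, W (i + j) = w.getD j 0

def Rec (W : ℕ → Fin 2) (w : List (Fin 2)) : Prop := ∀ N, ∃ i ≥ N, occ W w i

theorem getD_append_left' (l1 l2 : List (Fin 2)) {j : ℕ} (h : j < l1.length) :
    (l1 ++ l2).getD j 0 = l1.getD j 0 := by
  rw [List.getD_append _ _ _ _ h]

theorem getD_append_right' (l1 l2 : List (Fin 2)) (j : ℕ) :
    (l1 ++ l2).getD (l1.length + j) 0 = l2.getD j 0 := by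
  rw [List.getD_append_right _ _ _ _ (by omega)]
  congr 1
  omega

theorem occ_left {W : ℕ → Fin 2} {l1 l2 : List (Fin 2)} {i : ℕ} (h : occ W (l1 ++ l2) i) :
    occ W l1 i := by
  intro j hj
  rw [h j (by rw [List.length_append]; omega), getD_append_left' _ _ hj]

theorem occ_right {W : ℕ → Fin 2} {l1 l2 : List (Fin 2)} {i : ℕ} (h : occ W (l1 ++ l2) i) :
    occ W l2 (i + l1.length) := by
  intro j hj
  rw [add_assoc, h (l1.length + j) (by rw [List.length_append]; omega), getD_append_right']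

theorem Rec_mid {W : ℕ → Fin 2} {l1 k l2 : List (Fin 2)} (h : Rec W (l1 ++ k ++ l2)) : Rec W k := by
  intro N
  obtain ⟨i, hi, ho⟩ := h N
  exact ⟨i + l1.length, by omega, occ_right (occ_left ho)⟩

theorem Rec_nil (W : ℕ → Fin 2) : Rec W [] := fun N => ⟨N, le_rfl, fun j hj => absurd hj (by simp)⟩

theorem two_cases (x : Fin 2) : x = 0 ∨ x = 1 := by
  revert x; decide

/-- pigeonhole on a letter -/
theorem pigeon {P : Fin 2 → ℕ → Prop} (h : ∀ c, ∃ N, ∀ i ≥ N, ¬ P c i) :
    ∃ N, ∀ i ≥ N, ∀ c, ¬ P c i := by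
  choose f hf using h
  refine ⟨f 0 + f 1, fun i hi c => ?_⟩
  rcases two_cases c with rfl | rfl
  · exact hf 0 i (by omega)
  · exact hf 1 i (by omega)

theorem not_Rec {W : ℕ → Fin 2} {w : List (Fin 2)} : ¬ Rec W w ↔ ∃ N, ∀ i ≥ N, ¬ occ W w i := by
  unfold Rec
  push Not
  rfl

theorem right_step {W : ℕ → Fin 2} {v : List (Fin 2)} (h : ∀ c, ¬ Rec W (v ++ [c])) : ¬ Rec W v := by
  obtain ⟨N, hN⟩ := pigeon (P := fun c i => occ W (v ++ [c]) i) (fun c => not_Rec.mp (h c))
  rw [not_Rec]
  refine ⟨N, fun i hi ho => hN i hi (W (i + v.length)) ?_⟩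
  intro j hj
  rw [List.length_append, List.length_singleton] at hj
  rcases Nat.lt_or_ge j v.length with h2 | h2
  · rw [getD_append_left' _ _ h2, ho j h2]
  · obtain rfl : j = v.length := by omega
    have := getD_append_right' v [W (i + v.length)] 0
    rw [add_zero] at this
    rw [this]; rfl

theorem left_step {W : ℕ → Fin 2} {v : List (Fin 2)} (h : ∀ c, ¬ Rec W (c :: v)) : ¬ Rec W v := by
  obtain ⟨N, hN⟩ := pigeon (P := fun c i => occ W (c :: v) i) (fun c => not_Rec.mp (h c))
  rw [not_Rec]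
  refine ⟨N + 1, fun i hi ho => hN (i - 1) (by omega) (W (i - 1)) ?_⟩
  intro j hj
  rcases Nat.eq_zero_or_pos j with h2 | h2
  · subst h2; simp
  · obtain ⟨j', rfl⟩ : ∃ j', j = j' + 1 := ⟨j - 1, by omega⟩
    rw [List.length_cons] at hj
    rw [show i - 1 + (j' + 1) = i + j' from by omega, ho j' (by omega), List.getD_cons_succ]

/-! Boolean tests -/

def prefEq : ℕ → List (Fin 2) → List (Fin 2) → Bool
  | 0, _, _ => true
  | _ + 1, [], _ => false
  | _ + 1, _ :: _, [] => false
  | p + 1, a :: l, b :: m => a == b && prefEq p l m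

theorem prefEq_iff : ∀ (p : ℕ) (l m : List (Fin 2)), prefEq p l m = true ↔
    p ≤ l.length ∧ p ≤ m.length ∧ ∀ k < p, l.getD k 0 = m.getD k 0 := by
  intro p
  induction p with
  | zero => intro l m; simp [prefEq]
  | succ p ih =>
    intro l m
    cases l with
    | nil => simp [prefEq]
    | cons a l =>
      cases m with
      | nil => simp [prefEq]
      | cons b m =>
        rw [prefEq, Bool.and_eq_true, ih, beq_iff_eq]
        constructor
        · rintro ⟨rfl, h1, h2, h3⟩
          refine ⟨by simpa using h1, by simpa using h2, fun k hk => ?_⟩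
          cases k with
          | zero => rfl
          | succ k => rw [List.getD_cons_succ, List.getD_cons_succ]; exact h3 k (by omega)
        · rintro ⟨h1, h2, h3⟩
          refine ⟨?_, by simpa using h1, by simpa using h2, fun k hk => ?_⟩
          · have := h3 0 (by omega)
            simpa using this
          · have := h3 (k + 1) (by omega)
            rwa [List.getD_cons_succ, List.getD_cons_succ] at this

theorem drop_getD (x : List (Fin 2)) (d j : ℕ) : (x.drop d).getD j 0 = x.getD (d + j) 0 := by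
  simp [List.getD_eq_getElem?_getD, List.getElem?_drop]

/-- the word has a factor of period `p` and length `f p` -/
def hasPer (f : ℕ → ℕ) (x : List (Fin 2)) : Bool :=
  (List.range (x.length + 1)).any fun i => (List.range (x.length + 1)).any fun p =>
    decide (0 < p) && decide (i + f p ≤ x.length) &&
      prefEq (f p - p) (x.drop i) (x.drop (i + p))

theorem hasPer_of {f : ℕ → ℕ} (hf : ∀ p, 0 < p → p ≤ f p) {x : List (Fin 2)} {i p : ℕ} (hp : 0 < p)
    (hi : i + f p ≤ x.length) (h : ∀ j, j + p < f p → x.getD (i + j) 0 = x.getD (i + j + p) 0) :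
    hasPer f x = true := by
  have := hf p hp
  unfold hasPer
  rw [List.any_eq_true]
  refine ⟨i, List.mem_range.mpr (by omega), ?_⟩
  rw [List.any_eq_true]
  refine ⟨p, List.mem_range.mpr (by omega), ?_⟩
  rw [Bool.and_eq_true, Bool.and_eq_true, decide_eq_true_eq, decide_eq_true_eq, prefEq_iff]
  refine ⟨⟨hp, hi⟩, by rw [List.length_drop]; omega, by rw [List.length_drop]; omega, ?_⟩
  intro k hk
  rw [drop_getD, drop_getD, h k (by omega)]
  congr 1
  omega

theorem of_hasPer {f : ℕ → ℕ} {x : List (Fin 2)} (h : hasPer f x = true) : ∃ i p, 0 < p ∧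
    i + f p ≤ x.length ∧ ∀ j, j + p < f p → x.getD (i + j) 0 = x.getD (i + j + p) 0 := by
  unfold hasPer at h
  rw [List.any_eq_true] at h
  obtain ⟨i, -, h⟩ := h
  rw [List.any_eq_true] at h
  obtain ⟨p, -, h⟩ := h
  rw [Bool.and_eq_true, Bool.and_eq_true, decide_eq_true_eq, decide_eq_true_eq, prefEq_iff] at h
  obtain ⟨⟨hp, hi⟩, -, -, h3⟩ := h
  refine ⟨i, p, hp, hi, fun j hj => ?_⟩
  have := h3 j (by omega)
  rw [drop_getD, drop_getD] at this
  rw [this]
  congr 1
  omega

theorem not_Rec_of_cube {α : ℚ} (hα : α ≤ 3) {W : ℕ → Fin 2} (hW : PF α W) {v : List (Fin 2)}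
    (h : hasPer (fun p => 3 * p) v = true) : ¬ Rec W v := by
  obtain ⟨i, p, hp, h2, h3⟩ := of_hasPer h
  intro hrec
  obtain ⟨a, -, ho⟩ := hrec 0
  obtain ⟨k, hk, hne⟩ := hW (a + i) (3 * p) p hp (by
    push_cast
    exact mul_le_mul_of_nonneg_right hα (Nat.cast_nonneg p))
  apply hne
  rw [show a + i + k = a + (i + k) from by omega, show a + (i + k) + p = a + (i + k + p) from by omega,
    ho _ (by omega), ho _ (by omega)]
  exact h3 k hk

/-- the first six letters of the hub -/
def g0 : List (Fin 2) := [0,0,1,0,0,1]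

theorem mk_iff (x : ℕ → Fin 2) (s : ℕ) : mk x hub s 6 ↔ ∀ j < 6, x (s + j) = g0.getD j 0 := by
  have hh : ∀ j < 6, hub j = g0.getD j 0 := by decide +kernel
  constructor
  · intro h j hj
    rw [h j hj, hh j hj]
  · intro h j hj
    rw [h j hj, hh j hj]

/-- the word `g0` does not occur except possibly as a suffix -/
def gfree : List (Fin 2) → Bool
  | [] => true
  | a :: l => (decide (l.length < 6) || !(prefEq 6 g0 (a :: l))) && gfree l

theorem gfree_spec : ∀ (l : List (Fin 2)), gfree l = true →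
    ∀ s, s + 6 < l.length → ¬ mk (fun j => l.getD j 0) hub s 6 := by
  intro l
  induction l with
  | nil => intro _ s hs; simp at hs
  | cons a l ih =>
    intro h s hs hmk
    rw [gfree, Bool.and_eq_true, Bool.or_eq_true] at h
    rw [List.length_cons] at hs
    cases s with
    | zero =>
      rcases h.1 with h1 | h1
      · simp at h1; omega
      · rw [Bool.not_eq_true', ← Bool.not_eq_true, prefEq_iff] at h1
        apply h1
        refine ⟨by decide, by rw [List.length_cons]; omega, fun k hk => ?_⟩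
        have := (mk_iff _ _).mp hmk k hk
        simp only [zero_add] at this
        exact this.symm
    | succ s =>
      refine ih h.2 s (by omega) ?_
      rw [mk_iff] at hmk ⊢
      intro j hj
      have := hmk j hj
      rwa [show s + 1 + j = s + j + 1 from by omega, List.getD_cons_succ] at this

/-- `k` starts the list `l` -/
def starts : List (Fin 2) → List (Fin 2) → Bool
  | [], _ => true
  | _ :: _, [] => false
  | a :: k, b :: l => a == b && starts k l

theorem starts_spec : ∀ (k l : List (Fin 2)), starts k l = true → ∃ t, l = k ++ t := by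
  intro k
  induction k with
  | nil => intro l _; exact ⟨l, rfl⟩
  | cons a k ih =>
    intro l h
    cases l with
    | nil => simp [starts] at h
    | cons b l =>
      rw [starts, Bool.and_eq_true, beq_iff_eq] at h
      obtain ⟨rfl, h2⟩ := h
      obtain ⟨t, rfl⟩ := ih l h2
      exact ⟨t, rfl⟩

def inside (k : List (Fin 2)) : List (Fin 2) → Bool
  | [] => starts k []
  | a :: l => starts k (a :: l) || inside k l

theorem inside_spec (k : List (Fin 2)) : ∀ (l : List (Fin 2)), inside k l = true →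
    ∃ s t, l = s ++ k ++ t := by
  intro l
  induction l with
  | nil =>
    intro h
    obtain ⟨t, ht⟩ := starts_spec _ _ h
    exact ⟨[], t, by simpa using ht⟩
  | cons a l ih =>
    intro h
    rw [inside, Bool.or_eq_true] at h
    rcases h with h | h
    · obtain ⟨t, ht⟩ := starts_spec _ _ h
      exact ⟨[], t, by simpa using ht⟩
    · obtain ⟨s, t, rfl⟩ := ih h
      exact ⟨a :: s, t, by simp⟩

/-- `k` ends the list `l` -/
def ends (k : List (Fin 2)) : List (Fin 2) → Bool
  | [] => decide (k = [])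
  | a :: l => decide (k = a :: l) || ends k l

theorem ends_spec (k : List (Fin 2)) : ∀ (l : List (Fin 2)), ends k l = true → ∃ s, l = s ++ k := by
  intro l
  induction l with
  | nil =>
    intro h
    rw [ends, decide_eq_true_eq] at h
    exact ⟨[], by rw [h]; rfl⟩
  | cons a l ih =>
    intro h
    rw [ends, Bool.or_eq_true, decide_eq_true_eq] at h
    rcases h with h | h
    · exact ⟨[], by rw [h]; rfl⟩
    · obtain ⟨s, rfl⟩ := ih h
      exact ⟨a :: s, rfl⟩

inductive Cert
  | S
  | K
  | D (t : List (Fin 2))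
  | R (a b : Cert)
  | L (a b : Cert)

open Cert

def condB (x : List (Fin 2)) (M L U : ℕ) : Bool :=
  decide (6 ≤ M + 1) && decide (1 ≤ L) && decide (U ≤ M) && !(hasPer (fun p => 7 * p / 3 + 1) x) &&
    prefEq 6 g0 (x.drop (M + L - 6)) && gfree x &&
    (List.range (M + L)).all (fun p => (List.range (M + L + 1)).all fun E =>
      decide (p < M - U + 2) || decide (E ≤ M) || decide (3 * (E - (M - U)) ≤ 4 * p) ||
        (decide (p < E) && !(prefEq (E - p) x (x.drop p))))

def check (ks : List (List (Fin 2))) : List (Fin 2) → Cert → Bool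
  | v, .S => hasPer (fun p => 3 * p) v
  | v, .K => ks.any (fun k => inside k v)
  | v, .D t => ks.any (fun k => ends k (v ++ t.take 1) && condB (v ++ t) v.length t.length (k.length - 1))
  | v, .R a b => check ks (v ++ [0]) a && check ks (v ++ [1]) b
  | v, .L a b => check ks (0 :: v) a && check ks (1 :: v) b

def checkAll : List (List (Fin 2)) → List (List (Fin 2) × Cert) → Bool
  | ks, [] => ks.any (fun k => decide (k = []))
  | ks, (v, c) :: rest => check ks v c && checkAll (v :: ks) rest

def certData : List (List (Fin 2) × Cert) := [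
  ([0,0,1,0,0], (R S K)),
  ([1,1,0,0,1,0], (D [0,1])),
  ([0,1,1,0,0,1], (D [0,0,1])),
  ([1,1,0,0], (L (R S K) S)),
  ([0,1,0,1,1,0], (D [0,1,0,0,1])),
  ([1,0,0,1,1,0], (D [0,1,0,0,1])),
  ([1,1,0,1,1,0], (D [0,1,0,0,1])),
  ([0,1,1,0], (L (L S K) (L K K))),
  ([1,1], (L (R K S) S)),
  ([1,0,0,1,0,1], (D [1,0,0,1,0,0,1])),
  ([1,0,0], (R S (R (R K K) K))),
  ([0,0], (L S K)),
  ([], (R (R K (R (R K (R (R K S) K)) K)) (R (R K (R (R K (R (R K S) K)) K)) K)))]

theorem certData_ok : checkAll [g0] certData = true := by decide +kernel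

theorem condB_spec {x : List (Fin 2)} {M L U : ℕ} (hx : x.length = M + L) (h : condB x M L U = true) :
    6 ≤ M + 1 ∧ 1 ≤ L ∧ U ≤ M ∧
    (∀ i e p, 0 < p → 7 * p < 3 * e → i + e ≤ M + L →
      ∃ j, j + p < e ∧ x.getD (i + j) 0 ≠ x.getD (i + j + p) 0) ∧
    mk (fun j => x.getD j 0) hub (M + L - 6) 6 ∧
    (∀ s < M + L - 6, ¬ mk (fun j => x.getD j 0) hub s 6) ∧
    (∀ p E, M - U + 2 ≤ p → M < E → E ≤ M + L → 4 * p < 3 * (E - (M - U)) →
      ∃ j, j + p < E ∧ x.getD j 0 ≠ x.getD (j + p) 0) := by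
  unfold condB at h
  simp only [Bool.and_eq_true, decide_eq_true_eq, Bool.not_eq_true'] at h
  obtain ⟨⟨⟨⟨⟨⟨h1, h2⟩, h3⟩, h4⟩, h5⟩, h6⟩, h7⟩ := h
  refine ⟨h1, h2, h3, ?_, ?_, ?_, ?_⟩
  · intro i e p hp he hi
    by_contra hcon
    push Not at hcon
    rw [← Bool.not_eq_true] at h4
    exact h4 (hasPer_of (fun p _ => by omega) hp (by omega) fun j hj => hcon j (by omega))
  · rw [mk_iff]
    rw [prefEq_iff] at h5
    intro j hj
    rw [h5.2.2 j hj, drop_getD]
  · intro s hs
    exact gfree_spec x h6 s (by omega)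
  · intro p E hp hE1 hE2 hE3
    rw [List.all_eq_true] at h7
    have h8 := h7 p (List.mem_range.mpr (by omega))
    rw [List.all_eq_true] at h8
    have h9 := h8 E (List.mem_range.mpr (by omega))
    simp only [Bool.or_eq_true, decide_eq_true_eq, Bool.and_eq_true, Bool.not_eq_true'] at h9
    rcases h9 with ((h9 | h9) | h9) | ⟨h9, h10⟩
    · omega
    · omega
    · omega
    · rw [← Bool.not_eq_true, prefEq_iff] at h10
      by_contra hcon
      push Not at hcon
      apply h10
      refine ⟨by omega, by rw [List.length_drop]; omega, fun k hk => ?_⟩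
      rw [drop_getD, hcon k (by omega), add_comm]

theorem check_sound {α : ℚ} (hα : 2 < α) (hα3 : α ≤ 3)
    (h73 : ∀ p e : ℕ, 0 < p → α * p ≤ e → 7 * p < 3 * e) {W : ℕ → Fin 2} (hW : PF α W)
    (hNH : ∀ s, ∃ k, W (s + k) ≠ hub k) (N1 : ℕ) (hg : ∀ s ≥ N1, ¬ mk W hub s 6)
    (N : ℕ) (hGoal : ¬ GoalH α hub W N) (ks : List (List (Fin 2))) (hK : ∀ k ∈ ks, ¬ Rec W k) :
    ∀ (c : Cert) (v : List (Fin 2)), check ks v c = true → ¬ Rec W v := by
  intro c
  induction c with
  | S =>
    intro v h
    exact not_Rec_of_cube hα3 hW h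
  | K =>
    intro v h hrec
    rw [check, List.any_eq_true] at h
    obtain ⟨k, hk, hin⟩ := h
    obtain ⟨s, t, rfl⟩ := inside_spec _ _ hin
    exact hK k hk (Rec_mid hrec)
  | D t =>
    intro v h hrec
    rw [check, List.any_eq_true] at h
    obtain ⟨k, hk, hin⟩ := h
    rw [Bool.and_eq_true] at hin
    obtain ⟨hend, hcond⟩ := hin
    obtain ⟨s, hs⟩ := ends_spec _ _ hend
    have hkr := hK k hk
    have hk0 : k ≠ [] := by
      rintro rfl
      exact hkr (Rec_nil W)
    have hkl : 1 ≤ k.length := by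
      rcases Nat.eq_zero_or_pos k.length with h0 | h0
      · exact absurd (List.length_eq_zero_iff.mp h0) hk0
      · exact h0
    obtain ⟨c1, c2, c3, c4, c5, c6, c7⟩ := condB_spec (by rw [List.length_append]) hcond
    have htl : (t.take 1).length = 1 := by rw [List.length_take]; omega
    have hsl : s.length + k.length = v.length + 1 := by
      have := congrArg List.length hs
      rw [List.length_append, List.length_append, htl] at this
      omega
    obtain ⟨N0, hN0⟩ := not_Rec.mp hkr
    apply hGoal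
    refine lemD (hub_hb hα h73) h73 hW hNH N1 hg (fun j => (v ++ t).getD j 0) v.length t.length
      (k.length - 1) c1 c2 c3 (by omega) c4 c5 c6 c7 N0 ?_ ?_ N
    · intro i hi hall
      refine hN0 i hi ?_
      intro j hj
      rw [hall j (by omega)]
      have e1 : v.length - (k.length - 1) + j = s.length + j := by omega
      rw [e1]
      have e2 : (v ++ t).getD (s.length + j) 0 = (v ++ t.take 1).getD (s.length + j) 0 := by
        rcases Nat.lt_or_ge (s.length + j) v.length with h | h
        · rw [getD_append_left' _ _ h, getD_append_left' _ _ h]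
        · have e3 : s.length + j = v.length + 0 := by omega
          rw [e3, getD_append_right', getD_append_right']
          cases t with
          | nil => simp at c2
          | cons a t => simp
      rw [e2, hs, getD_append_right']
    · intro N'
      obtain ⟨a, ha, ho⟩ := hrec N'
      refine ⟨a, ha, fun j hj => ?_⟩
      rw [ho j hj]
      exact (getD_append_left' _ _ hj).symm
  | R a b iha ihb =>
    intro v h
    rw [check, Bool.and_eq_true] at h
    apply right_step
    intro x
    rcases two_cases x with rfl | rfl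
    · exact iha _ h.1
    · exact ihb _ h.2
  | L a b iha ihb =>
    intro v h
    rw [check, Bool.and_eq_true] at h
    apply left_step
    intro x
    rcases two_cases x with rfl | rfl
    · exact iha _ h.1
    · exact ihb _ h.2

theorem checkAll_sound {α : ℚ} (hα : 2 < α) (hα3 : α ≤ 3)
    (h73 : ∀ p e : ℕ, 0 < p → α * p ≤ e → 7 * p < 3 * e) {W : ℕ → Fin 2} (hW : PF α W)
    (hNH : ∀ s, ∃ k, W (s + k) ≠ hub k) (N1 : ℕ) (hg : ∀ s ≥ N1, ¬ mk W hub s 6)
    (N : ℕ) (hGoal : ¬ GoalH α hub W N) : ∀ (L : List (List (Fin 2) × Cert)) (ks : List (List (Fin 2))),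
    (∀ k ∈ ks, ¬ Rec W k) → checkAll ks L = true → False := by
  intro L
  induction L with
  | nil =>
    intro ks hK h
    rw [checkAll, List.any_eq_true] at h
    obtain ⟨k, hk, hk2⟩ := h
    rw [decide_eq_true_eq] at hk2
    subst hk2
    exact hK _ hk (Rec_nil W)
  | cons p L ih =>
    obtain ⟨v, c⟩ := p
    intro ks hK h
    rw [checkAll, Bool.and_eq_true] at h
    refine ih (v :: ks) ?_ h.2
    intro k hk
    rcases List.mem_cons.mp hk with rfl | hk
    · exact check_sound hα hα3 h73 hW hNH N1 hg N hGoal ks hK c _ h.1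
    · exact hK k hk

/-- every infinite power-free binary word can be switched to the hub -/
theorem goal_all {α : ℚ} (hα : 2 < α) (hα3 : α ≤ 3)
    (h73 : ∀ p e : ℕ, 0 < p → α * p ≤ e → 7 * p < 3 * e) {W : ℕ → Fin 2} (hW : PF α W) (N : ℕ) :
    GoalH α hub W N := by
  by_contra hGoal
  have hNH : ∀ s, ∃ k, W (s + k) ≠ hub k := by
    by_contra hcon
    push Not at hcon
    obtain ⟨s, h⟩ := hcon
    exact hGoal ⟨W, s, hW, h, fun i _ => rfl⟩
  have hg : ∃ N1, ∀ s ≥ N1, ¬ mk W hub s 6 := by
    by_contra hcon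
    push Not at hcon
    exact hGoal (switch (hub_hb hα h73) hW hcon N)
  obtain ⟨N1, hN1⟩ := hg
  refine checkAll_sound hα hα3 h73 hW hNH N1 hN1 N hGoal certData [g0] ?_ certData_ok
  intro k hk
  obtain rfl : k = g0 := by simpa using hk
  rw [not_Rec]
  refine ⟨N1, fun i hi ho => hN1 i hi ?_⟩
  rw [mk_iff]
  intro j hj
  exact ho j hj

theorem h73_of {α : ℚ} (hα : 7 / 3 < α) (p e : ℕ) (hp : 0 < p) (he : α * p ≤ e) : 7 * p < 3 * e := by
  have hp' : (0 : ℚ) < p := by exact_mod_cast hp
  have h1 : (7 / 3 : ℚ) * p < α * p := mul_lt_mul_of_pos_right hα hp'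
  have h2 : (7 : ℚ) * p < 3 * e := by linarith
  exact_mod_cast h2

theorem hub_pal (B : ℕ) : ∃ n ≥ B, ∀ i < n, hub (2 + (n - 1 - i)) = hub (2 + i) := by
  obtain ⟨m, hm⟩ : ∃ m, B + 44 ≤ 2 ^ (2 * m) := by
    refine ⟨B + 44, ?_⟩
    have h1 : B + 44 < 2 ^ (B + 44) := Nat.lt_two_pow_self
    have h2 : 2 ^ (B + 44) ≤ 2 ^ (2 * (B + 44)) := Nat.pow_le_pow_right (by norm_num) (by omega)
    omega
  refine ⟨2 ^ (2 * m) - 44, by omega, fun i hi => ?_⟩
  rw [hub_ge (by omega), hub_ge (by omega)]
  have := Fam.tm_mirror_even m (20 + (2 + i)) (by omega)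
  rw [show 20 + (2 + (2 ^ (2 * m) - 44 - 1 - i)) = 2 ^ (2 * m) - 1 - (20 + (2 + i)) from by omega,
    this]

/-- the transition property for two letters and exponents between `7/3` and `3` -/
theorem TP_bin {α : ℚ} (hα : 7 / 3 < α) (hα3 : α ≤ 3) : TP 2 α := by
  have hα2 : 2 < α := by linarith
  refine HubG.TP_of_hub (l := 2) (by linarith) ?_ (h73_of hα) hub_pal ?_
  · intro p hp
    obtain ⟨j, hj, hne⟩ := hub_ov (le_refl 2) hp
    exact ⟨j, hj, by rwa [← add_assoc]⟩
  · intro W hW N
    exact goal_all hα2 hα3 (h73_of hα) hW N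

theorem pr_hub : Primrec hub := by
  have hb : Primrec fun b : Bool => if b then (1 : Fin 2) else 0 := Primrec.dom_finite _
  have h : Primrec fun i : ℕ => if i < 2 then (0 : Fin 2) else if tm (20 + i) then 1 else 0 := by
    refine Primrec.ite (Primrec.nat_lt.comp Primrec.id (Primrec.const 2)) (Primrec.const 0) ?_
    exact hb.comp (ExtC.pr_tm.comp (Primrec.nat_add.comp (Primrec.const 20) Primrec.id))
  exact h

theorem good_bin {α : ℚ} (hα : 7 / 3 < α) (hα3 : α ≤ 3) : ExtC.Good α hub where
  pos := by linarith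
  reach := fun W hW N => goal_all (by linarith) hα3 (h73_of hα) hW N
  fin := fin_of_hb (hub_hb (by linarith) (h73_of hα))

end Pool.Agent.Helper131.Bin
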